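import Pool.Agent.N869.QT.FStm
import Pool.Agent.N869.QA.L.Stm

/-!
# Project QA (helper869): the exact proportion in the family of all multiquadratic extensions

Sequel of project QT (`Pool/Agent/N869/QT`). The sets `S ∈ SA X` have the weight `w ^ #S`; for
`w = card Q` this counts all the colourings of the sets `S ∈ SA X` (all the extensions of conductor at
most `X`). Statements of the parts.
-/

set_option autoImplicit false
set_option linter.unusedVariables false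

open scoped Classical

namespace Pool.Agent.N869.QA

open Finset
open Pool.Agent.Y698
open Pool.Agent.Y698.SG hiding PD
open Pool.Agent.R426.QK
open Pool.Agent.Y703.CX (jj XX eL zz kk)
open Pool.Agent.N869.QT
open Pool.Agent.N869.QT.L (GdL Lc HypC Fam)
open Pool.Agent.N869.QT.G (sys exC pr Qn ET)
open Pool.Agent.N869.QA.L (GP SAg WS L1 Up Lo Sav)

/-- the primary primes of `RR` -/
noncomputable def gpR : GP RR where
  Pq := Pq
  nrm := nrm
  QB := QB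
  mem := fun X π => mem_QB
  two_le := fun π h => by
    have h1 := nrm_pos' (pq_ne h)
    have h2 : nrm π ≠ 1 := fun h0 => h.prime.not_isUnit (nrm_one_iff.1 h0)
    omega

theorem SAg_eq (X : ℕ) : SAg gpR X = SA X := rfl

/-- QA-KEY: as `QT.S_KEYC`, for the sets with `m` elements. -/
def S_KEYM : Prop := RecP → S_BIL → S_EQ → S_BOXC → ∀ (I I' Q : Type) [Fintype I] [Fintype I']
  [Fintype Q] (E : I → Finset Q) (F : I' → Finset Q), Fam E → ∃ C : ℝ, 1 ≤ C ∧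
  ∀ (γ : RR → Q) (ε : ℝ) (K : ℕ), 0 < ε → LAEC E ε K →
  ∀ (X z H k N m : ℕ) (κ : ℝ), 1 ≤ X → 1 ≤ H → 1 ≤ z → 0 ≤ κ → C ≤ κ ^ 24 * z →
  (H : ℝ) * Real.log X < N →
  |((((RgC γ E F X z H k).filter fun S => S.card = m).filter fun S =>
        NdC K γ (sm z S) (la z S) ∧ GdC γ E S).card : ℝ) -
      c2 ^ Fintype.card I *
        ((((RgC γ E F X z H k).filter fun S => S.card = m).filter fun S =>
          NdC K γ (sm z S) (la z S)).card : ℝ)| ≤
    ε * (((RgC γ E F X z H k).filter fun S => S.card = m).card : ℝ) +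
    (C * (N + 1) : ℝ) ^ k * (3 ^ (9 * k ^ 2 + 9) * κ) * (X * (1 + Real.log X))

/-- QA-FB: the labels are degenerate rarely, with weights. -/
def S_WFBC : Prop := RecP → S_HALL → S_MERT → L.S_WALL → L.S_WH →
  ∀ (Q : Type) [Fintype Q] [Nonempty Q] (w A K : ℕ) (ε : ℝ), 1 ≤ w → 0 < ε →
  ∃ X₀ : ℕ, ∀ X : ℕ, X₀ ≤ X →
  ∑ S ∈ (SA X).filter (fun S => S.card ≤ A * kk X),
    (w : ℝ) ^ S.card * pr S (fun γ : RR → Q => ¬ NdC K γ (sm (zz X) S) (la (zz X) S)) ≤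
      ε * (X * L1 X ^ (w - 1))

/-- QA-ASY: the weighted average. -/
def S_ASYA : Prop := ∀ (I I' Q : Type) [Fintype I] [Fintype I'] [Fintype Q] [Nonempty Q]
  (E : I → Finset Q) (F : I' → Finset Q), Fam E → ∀ w : ℕ, 1 ≤ w → ∀ ε : ℝ, 0 < ε →
  ∃ X₀ : ℕ, ∀ X : ℕ, X₀ ≤ X →
  |∑ S ∈ SA X, (w : ℝ) ^ S.card *
        pr S (fun γ : RR → Q => G.ClC tt γ E S ∧ G.ClC tt γ F S ∧ G.GdC Gd γ E S) -
      c2 ^ Fintype.card I * ∑ S ∈ SA X, (w : ℝ) ^ S.card *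
        pr S (fun γ : RR → Q => G.ClC tt γ E S ∧ G.ClC tt γ F S)| ≤
    ε * (X * L1 X ^ (w - 1))

/-- QA-FIN: the exact proportion among all the tuples. -/
def S_FINA : Prop := ∀ (n : ℕ), 2 ≤ n → ∀ 𝒯 : Finset (Qn n),
  (∀ S : Finset RR, (∀ π ∈ S, Pq π) → (TupR n S).Finite) ∧
  (∃ (c : ℝ) (X₀ : ℕ), 0 < c ∧ ∀ X : ℕ, X₀ ≤ X →
    c * (X * L1 X ^ (2 ^ n - 2)) ≤ ∑ S ∈ SA X, ((TupR n S).ncard : ℝ)) ∧
  Filter.Tendsto (fun X : ℕ => (∑ S ∈ SA X, ({x ∈ TupR n S | GoR 𝒯 x}.ncard : ℝ)) /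
    (∑ S ∈ SA X, ((TupR n S).ncard : ℝ))) Filter.atTop (nhds (c2 ^ 𝒯.card))

end Pool.Agent.N869.QA
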