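import Pool.Agent.N869.QT.ASYC
import Pool.Agent.N869.QA.Stm

/-!
# Project QA (helper869): the weighted asymptotics

After `Pool/Agent/N869/QT/ASYC.lean`: the sets have the weight `w ^ #S`. The bound for the number of the
primes is `A * kk X`, the number of the blocks is `HH X ^ B`.
-/

set_option autoImplicit false
set_option linter.unusedVariables false
set_option linter.unusedSectionVars false

open scoped Classical
open Finset Filter

namespace Pool.Agent.N869.QA.ASYA

open Pool.Agent.R426.QK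
open Pool.Agent.R426.QK.Asy (Sml sml_of sml_add sml_eps kk_pos kap kap_nonneg kap_pow kap_le
  log_three cmp)
open Pool.Agent.Y698 (RR)
open Pool.Agent.Y703.CX (jj XX eL zz kk eL_tendsto logX_eq rpow_eL HH NN ev_eL one_le_exp
  HH_ge HH_le HH_pos kk_ge kk_le X_pos one_add_log lin_le zz_ge zz_pos)
open Pool.Agent.N869.QT
open Pool.Agent.N869.QT.L (GdL Lc HypC Fam)
open Pool.Agent.N869.QT.G (sys exC pr Dep Qn ET)
open Pool.Agent.N869.QT.ASYC (PC PG PN dep_PC dep_PG dep_PN avg_bound)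
open Pool.Agent.N869.QA.L (GP SAg WS L1 Up Lo Sav)

theorem one_le_L1 (X : ℕ) : 1 ≤ L1 X := by
  unfold L1
  have := Real.log_natCast_nonneg X
  linarith

section par

variable {A w X : ℕ}

theorem kA_le (h : 1 ≤ eL X) : ((A * kk X : ℕ) : ℝ) ≤ 11 * A * eL X := by
  have h1 := kk_le h
  have hA : (0 : ℝ) ≤ A := Nat.cast_nonneg _
  push_cast
  nlinarith

theorem pow_le_exp {k : ℕ} {t : ℝ} (h : (k : ℝ) ≤ t) : ((w : ℕ) : ℝ) ^ k ≤ Real.exp (w * t) := by
  have h1 : ((w : ℕ) : ℝ) ≤ Real.exp w := by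
    have := Real.add_one_le_exp (w : ℝ)
    linarith
  calc ((w : ℕ) : ℝ) ^ k ≤ (Real.exp w) ^ k := pow_le_pow_left₀ (Nat.cast_nonneg _) h1 _
    _ = Real.exp (k * w) := (Real.exp_nat_mul _ _).symm
    _ ≤ Real.exp (w * t) := by
        apply Real.exp_le_exp.2
        rw [mul_comm]
        exact mul_le_mul_of_nonneg_left h (Nat.cast_nonneg _)

theorem nat_le_exp {k : ℕ} {t : ℝ} (h : (k : ℝ) ≤ t) : (k : ℝ) + 1 ≤ Real.exp t :=
  (Real.add_one_le_exp (k : ℝ)).trans (Real.exp_le_exp.2 h)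

end par

/-- the number of the blocks -/
noncomputable def NB (B X : ℕ) : ℕ := ⌊((HH X ^ B : ℕ) : ℝ) * Real.log X⌋₊ + 1

/-- the number of the blocks per unit is at least -/
theorem HB_ge {B X : ℕ} (h : 0 < eL X) : Real.exp (3 * B * eL X) ≤ ((HH X ^ B : ℕ) : ℝ) := by
  push_cast
  calc Real.exp (3 * B * eL X) = (Real.exp (3 * eL X)) ^ B := by
        rw [← Real.exp_nat_mul]
        congr 1
        ring
    _ ≤ (HH X : ℝ) ^ B := pow_le_pow_left₀ (Real.exp_pos _).le (HH_ge h) _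

theorem HB_le {B X : ℕ} (h : 1 ≤ eL X) : ((HH X ^ B : ℕ) : ℝ) ≤ Real.exp (4 * B * eL X) := by
  have h0 : 0 < eL X := by linarith
  push_cast
  have h2 : (HH X : ℝ) ≤ Real.exp (4 * eL X) := by
    refine (HH_le h0).trans ?_
    have h3 : (2 : ℝ) ≤ Real.exp (eL X) := by
      have := Real.add_one_le_exp (eL X)
      linarith
    calc 2 * Real.exp (3 * eL X) ≤ Real.exp (eL X) * Real.exp (3 * eL X) := by gcongr
      _ = Real.exp (4 * eL X) := by rw [← Real.exp_add]; congr 1; ring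
  calc (HH X : ℝ) ^ B ≤ (Real.exp (4 * eL X)) ^ B := pow_le_pow_left₀ (Nat.cast_nonneg _) h2 _
    _ = Real.exp (4 * B * eL X) := by
        rw [← Real.exp_nat_mul]
        congr 1
        ring

theorem exp_six (a b c d e f C X : ℝ) : Real.exp a * Real.exp b * (Real.exp c * (Real.exp d *
    (2 * C * Real.exp e)) * (X * (2 * Real.exp f))) =
    4 * C * (X * Real.exp (a + b + c + d + e + f)) := by
  rw [Real.exp_add, Real.exp_add, Real.exp_add, Real.exp_add, Real.exp_add]
  ring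

/-- the main error term -/
theorem sml_main {C : ℝ} (hC : 1 ≤ C) (A B w : ℕ) : Sml 0 fun X =>
    (((A * kk X : ℕ) : ℝ) + 1) * (w : ℝ) ^ (A * kk X) *
    ((C * ((NB B X : ℝ) + 1)) ^ (A * kk X) *
    (3 ^ (9 * (A * kk X) ^ 2 + 9) * kap C X) * (X * (1 + Real.log X))) := by
  apply sml_of (C := 4 * C) (a := 1) (by norm_num)
  set T : ℝ := 24 * (11 * A + 11 * A * w + 11 * A * (4 * B + 2) + 1200 * A ^ 2 + 12) with hT
  have hA0 : (0 : ℝ) ≤ A := Nat.cast_nonneg _
  have hB0 : (0 : ℝ) ≤ B := Nat.cast_nonneg _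
  have hw0 : (0 : ℝ) ≤ w := Nat.cast_nonneg _
  have hT0 : 0 ≤ T := by positivity
  filter_upwards [ev_eL (1 + T + 3 * C)] with X hX
  set l := eL X with hl
  have h1 : 1 ≤ eL X := by linarith
  have h0 : 0 < eL X := by linarith
  have h1' : 1 ≤ l := h1
  have hX0 : (0 : ℝ) ≤ X := Nat.cast_nonneg _
  have hk := kA_le (A := A) h1
  rw [← hl] at hk
  set k := A * kk X with hkdef
  have hk0 : (0 : ℝ) ≤ k := Nat.cast_nonneg _
  -- the factors
  have f1 : (k : ℝ) + 1 ≤ Real.exp (11 * A * l) := nat_le_exp hk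
  have f2 : (w : ℝ) ^ k ≤ Real.exp (w * (11 * A * l)) := pow_le_exp hk
  have f3 : C * ((NB B X : ℝ) + 1) ≤ Real.exp ((4 * B + 2) * l) := by
    have g1 : (NB B X : ℝ) ≤ ((HH X ^ B : ℕ) : ℝ) * Real.log X + 1 := by
      unfold NB
      push_cast
      have := Nat.floor_le (a := ((HH X : ℝ) ^ B) * Real.log X)
        (mul_nonneg (by positivity) (Real.log_natCast_nonneg X))
      linarith
    have g2 : ((HH X ^ B : ℕ) : ℝ) * Real.log X ≤ Real.exp ((4 * B + 1) * l) := by
      rw [logX_eq h0]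
      calc ((HH X ^ B : ℕ) : ℝ) * Real.exp (eL X) ≤ Real.exp (4 * B * eL X) * Real.exp (eL X) :=
            mul_le_mul_of_nonneg_right (HB_le h1) (Real.exp_pos _).le
        _ = Real.exp ((4 * B + 1) * l) := by
            rw [← Real.exp_add]
            congr 1
            rw [hl]
            ring
    have g3 : 1 ≤ Real.exp ((4 * B + 1) * l) := one_le_exp (by positivity)
    have g4 : 3 * C ≤ Real.exp l := by
      have := Real.add_one_le_exp l
      linarith
    have g5 : (NB B X : ℝ) + 1 ≤ 3 * Real.exp ((4 * B + 1) * l) := by linarith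
    calc C * ((NB B X : ℝ) + 1) ≤ C * (3 * Real.exp ((4 * B + 1) * l)) := by gcongr
      _ = Real.exp ((4 * B + 1) * l) * (3 * C) := by ring
      _ ≤ Real.exp ((4 * B + 1) * l) * Real.exp l := by gcongr
      _ = Real.exp ((4 * B + 2) * l) := by
          rw [← Real.exp_add]
          congr 1
          ring
  have hN0 : (0 : ℝ) ≤ C * ((NB B X : ℝ) + 1) := by positivity
  have f4 : (C * ((NB B X : ℝ) + 1)) ^ k ≤ Real.exp (11 * A * (4 * B + 2) * l ^ 2) := by
    calc (C * ((NB B X : ℝ) + 1)) ^ k ≤ (Real.exp ((4 * B + 2) * l)) ^ k := by gcongr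
      _ = Real.exp (k * ((4 * B + 2) * l)) := (Real.exp_nat_mul _ _).symm
      _ ≤ Real.exp (11 * A * (4 * B + 2) * l ^ 2) := by
          apply Real.exp_le_exp.2
          calc (k : ℝ) * ((4 * B + 2) * l) ≤ (11 * A * l) * ((4 * B + 2) * l) := by gcongr
            _ = _ := by ring
  have f5 : (3 : ℝ) ^ (9 * k ^ 2 + 9) ≤ Real.exp (1200 * A ^ 2 * l ^ 2 + 10) := by
    have e : (3 : ℝ) ^ (9 * k ^ 2 + 9) = Real.exp ((9 * (k : ℝ) ^ 2 + 9) * Real.log 3) := by
      rw [mul_comm (9 * (k : ℝ) ^ 2 + 9) (Real.log 3), Real.exp_mul, Real.exp_log (by norm_num)]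
      rw [← Real.rpow_natCast]
      congr 1
      push_cast
      ring
    rw [e]
    apply Real.exp_le_exp.2
    have h2 := log_three
    have h3 : (k : ℝ) ^ 2 ≤ 121 * A ^ 2 * l ^ 2 := by
      calc (k : ℝ) ^ 2 ≤ (11 * A * l) ^ 2 := pow_le_pow_left₀ hk0 hk 2
        _ = _ := by ring
    calc (9 * (k : ℝ) ^ 2 + 9) * Real.log 3 ≤ (9 * (k : ℝ) ^ 2 + 9) * 1.1 := by gcongr
      _ ≤ (9 * (121 * A ^ 2 * l ^ 2) + 9) * 1.1 := by gcongr
      _ ≤ 1200 * A ^ 2 * l ^ 2 + 10 := by
          have : 0 ≤ (A : ℝ) ^ 2 * l ^ 2 := by positivity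
          nlinarith
  have f6 := kap_le hC h1
  rw [← hl] at f6
  have f7 := one_add_log h0
  rw [← hl] at f7
  have hkap := kap_nonneg hC X
  have hlog : 0 ≤ 1 + Real.log X := by
    have := Real.log_natCast_nonneg X
    linarith
  have hmain : ((k : ℝ) + 1) * (w : ℝ) ^ k * ((C * ((NB B X : ℝ) + 1)) ^ k *
      (3 ^ (9 * k ^ 2 + 9) * kap C X) * (X * (1 + Real.log X))) ≤
      Real.exp (11 * A * l) * Real.exp (w * (11 * A * l)) *
      (Real.exp (11 * A * (4 * B + 2) * l ^ 2) * (Real.exp (1200 * A ^ 2 * l ^ 2 + 10) *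
        (2 * C * Real.exp (-l ^ 3 / 24))) * (X * (2 * Real.exp l))) := by
    gcongr
  refine hmain.trans ?_
  rw [exp_six]
  have h9 : 11 * A * l + w * (11 * A * l) + 11 * A * (4 * B + 2) * l ^ 2 +
        (1200 * A ^ 2 * l ^ 2 + 10) + -l ^ 3 / 24 + l ≤ -1 * l := by
    have hTl : T ≤ l := by linarith
    have h10 : T * l ^ 2 ≤ l ^ 3 := by
      have : l ^ 3 = l * l ^ 2 := by ring
      rw [this]
      exact mul_le_mul_of_nonneg_right hTl (sq_nonneg l)
    have hll : l ≤ l ^ 2 := by nlinarith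
    have g1 : 11 * (A : ℝ) * l ≤ 11 * A * l ^ 2 := by gcongr
    have g2 : (w : ℝ) * (11 * A * l) ≤ w * (11 * A * l ^ 2) := by gcongr
    have g3 : (1 : ℝ) ≤ l ^ 2 := one_le_pow₀ h1'
    rw [hT] at h10
    linarith
  have h11 := Real.exp_le_exp.2 h9
  have hC0 : (0 : ℝ) ≤ 4 * C := by linarith
  gcongr

/-- sets near the boundary -/
theorem sml_cut {D : ℝ} (h : CntA D) (A w : ℕ) (hA : 1 ≤ A) :
    Sml 0 fun X => (w : ℝ) ^ (A * kk X) * (((SA X).filter fun S => S.card ≤ A * kk X ∧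
      X < (∏ π ∈ sm (zz X) S, nrm π) * ∏ π ∈ la (zz X) S,
        XX (HH X ^ (4 * A * (w + 1) + 2)) (bl (HH X ^ (4 * A * (w + 1) + 2)) π)).card : ℝ) := by
  have hD := h.one
  obtain ⟨B, hB⟩ : ∃ B : ℕ, B = 4 * A * (w + 1) + 2 := ⟨_, rfl⟩
  rw [← hB]
  have hBr : (B : ℝ) = 4 * A * (w + 1) + 2 := by
    rw [hB]
    push_cast
    ring
  have hA0 : (1 : ℝ) ≤ A := by exact_mod_cast hA
  have hw0 : (0 : ℝ) ≤ w := Nat.cast_nonneg _
  apply sml_of (C := 3 * D) (a := 1) (by norm_num)
  set T : ℝ := 66 * A * (11 * A * w + 1) with hT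
  have hT0 : 0 ≤ T := by positivity
  filter_upwards [ev_eL (1 + T)] with X hX
  have h1' : 1 ≤ eL X := by linarith
  have h0 : 0 < eL X := by linarith
  have hk1 : 1 ≤ A * kk X := Nat.mul_pos (by omega) (kk_pos h1')
  have hc := h.cut X (zz X) (HH X ^ B) (A * kk X) (X_pos h0) (Nat.one_le_pow _ _ (HH_pos h0)) hk1
  set l := eL X with hl
  have hk := kA_le (A := A) h1'
  rw [← hl] at hk
  set k := A * kk X with hkdef
  have hk0 : (0 : ℝ) < k := by exact_mod_cast hk1
  have hX0 : (0 : ℝ) ≤ X := Nat.cast_nonneg _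
  have f2 : (w : ℝ) ^ k ≤ Real.exp (w * (11 * A * l)) := pow_le_exp hk
  have f3 : (k : ℝ) ≤ Real.exp (11 * A * l) := by
    have := nat_le_exp hk
    linarith
  have f4 := one_add_log h0
  rw [← hl] at f4
  have hlog : 0 ≤ 1 + Real.log X := by
    have := Real.log_natCast_nonneg X
    linarith
  have f5 := HB_ge (B := B) h0
  rw [← hl] at f5
  have hHp : (0 : ℝ) < ((HH X ^ B : ℕ) : ℝ) := lt_of_lt_of_le (Real.exp_pos _) f5
  have f6 : (k : ℝ) / ((HH X ^ B : ℕ) : ℝ) ≤ Real.exp (11 * A * l - 3 * B * l) := by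
    rw [div_le_iff₀ hHp]
    calc (k : ℝ) ≤ Real.exp (11 * A * l) := f3
      _ = Real.exp (11 * A * l - 3 * B * l) * Real.exp (3 * B * l) := by
          rw [← Real.exp_add]; congr 1; ring
      _ ≤ _ := mul_le_mul_of_nonneg_left f5 (Real.exp_pos _).le
  have g1 : (w : ℝ) ^ k * (D * (X * (1 + Real.log X)) * ((k : ℝ) / ((HH X ^ B : ℕ) : ℝ))) ≤
      2 * D * (X * Real.exp (-1 * l)) := by
    calc (w : ℝ) ^ k * (D * (X * (1 + Real.log X)) * ((k : ℝ) / ((HH X ^ B : ℕ) : ℝ))) ≤
        Real.exp (w * (11 * A * l)) * (D * (X * (2 * Real.exp l)) *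
          Real.exp (11 * A * l - 3 * B * l)) := by gcongr
      _ = 2 * D * (X * Real.exp (w * (11 * A * l) + l + (11 * A * l - 3 * B * l))) := by
          rw [Real.exp_add, Real.exp_add]
          ring
      _ ≤ 2 * D * (X * Real.exp (-1 * l)) := by
          have : w * (11 * A * l) + l + (11 * A * l - 3 * B * l) ≤ -1 * l := by
            rw [hBr]
            have h5 : 0 ≤ (A : ℝ) * w * l := by positivity
            have h6 : 0 ≤ (A : ℝ) * l := by positivity
            nlinarith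
          gcongr
  have g2 : (w : ℝ) ^ k * (D * X * Real.exp (-(Real.log X) / k)) ≤ D * (X * Real.exp (-1 * l)) := by
    have g3 : Real.exp (-(Real.log X) / k) ≤ Real.exp (-(w * (11 * A * l)) - l) := by
      apply Real.exp_le_exp.2
      rw [div_le_iff₀ hk0, logX_eq h0, ← hl]
      have h7 : l ^ 3 / 6 ≤ Real.exp l := by
        have := Real.pow_div_factorial_le_exp l (by linarith) 3
        norm_num [Nat.factorial] at this
        linarith
      have h8 : T * l ^ 2 ≤ l ^ 3 := by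
        have : l ^ 3 = l * l ^ 2 := by ring
        rw [this]
        exact mul_le_mul_of_nonneg_right (by linarith) (sq_nonneg l)
      have h9 : (w * (11 * A * l) + l) * (k : ℝ) ≤ (w * (11 * A * l) + l) * (11 * A * l) := by
        have : 0 ≤ w * (11 * A * l) + l := by positivity
        gcongr
      rw [hT] at h8
      nlinarith
    calc (w : ℝ) ^ k * (D * X * Real.exp (-(Real.log X) / k)) ≤
        Real.exp (w * (11 * A * l)) * (D * X * Real.exp (-(w * (11 * A * l)) - l)) := by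
          gcongr
      _ = D * (X * (Real.exp (w * (11 * A * l)) * Real.exp (-(w * (11 * A * l)) - l))) := by ring
      _ = D * (X * Real.exp (-1 * l)) := by
          rw [← Real.exp_add]
          congr 3
          ring
  have hw1 : (0 : ℝ) ≤ (w : ℝ) ^ k := by positivity
  calc _ ≤ (w : ℝ) ^ k * (D * (X * (1 + Real.log X)) * ((k : ℝ) / ((HH X ^ B : ℕ) : ℝ)) +
        D * X * Real.exp (-(Real.log X) / k)) := mul_le_mul_of_nonneg_left hc hw1
    _ ≤ 3 * D * (X * Real.exp (-1 * l)) := by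
        rw [mul_add]
        linarith

/-- sets with two primes in one block -/
theorem sml_coll {D : ℝ} (h : CntA D) (A w : ℕ) (hA : 1 ≤ A) :
    Sml 0 fun X => (w : ℝ) ^ (A * kk X) * (((SA X).filter fun S =>
    ¬ Set.InjOn (bl (HH X ^ (4 * A * (w + 1) + 2))) (la (zz X) S : Set RR)).card : ℝ) := by
  have hD := h.one
  obtain ⟨B, hB⟩ : ∃ B : ℕ, B = 4 * A * (w + 1) + 2 := ⟨_, rfl⟩
  rw [← hB]
  have hBr : (B : ℝ) = 4 * A * (w + 1) + 2 := by
    rw [hB]
    push_cast
    ring
  have hA0 : (1 : ℝ) ≤ A := by exact_mod_cast hA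
  have hw0 : (0 : ℝ) ≤ w := Nat.cast_nonneg _
  apply sml_of (C := 4 * D) (a := 1) (by norm_num)
  set T : ℝ := 11 * A * w + 1 with hT
  have hT0 : 0 ≤ T := by positivity
  filter_upwards [ev_eL (1 + T)] with X hX
  have h1' : 1 ≤ eL X := by linarith
  have h0 : 0 < eL X := by linarith
  have hc := h.coll X (zz X) (HH X ^ B) (X_pos h0) (zz_pos h1') (Nat.one_le_pow _ _ (HH_pos h0))
  have hzz := zz_ge h1'
  set l := eL X with hl
  have hk := kA_le (A := A) h1'
  rw [← hl] at hk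
  set k := A * kk X with hkdef
  have hX0 : (0 : ℝ) ≤ X := Nat.cast_nonneg _
  have f2 : (w : ℝ) ^ k ≤ Real.exp (w * (11 * A * l)) := pow_le_exp hk
  have f4 := one_add_log h0
  rw [← hl] at f4
  have hlog : 0 ≤ 1 + Real.log X := by
    have := Real.log_natCast_nonneg X
    linarith
  have f5 := HB_ge (B := B) h0
  rw [← hl] at f5
  have hHp : (0 : ℝ) < ((HH X ^ B : ℕ) : ℝ) := lt_of_lt_of_le (Real.exp_pos _) f5
  have g1 : (w : ℝ) ^ k * (D * (X * (1 + Real.log X)) / ((HH X ^ B : ℕ) : ℝ)) ≤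
      2 * D * (X * Real.exp (-1 * l)) := by
    have g0 : D * (X * (1 + Real.log X)) / ((HH X ^ B : ℕ) : ℝ) ≤
        D * (X * (2 * Real.exp l)) / Real.exp (3 * B * l) := by gcongr
    calc (w : ℝ) ^ k * (D * (X * (1 + Real.log X)) / ((HH X ^ B : ℕ) : ℝ)) ≤
        Real.exp (w * (11 * A * l)) * (D * (X * (2 * Real.exp l)) / Real.exp (3 * B * l)) := by
          gcongr
      _ = 2 * D * (X * Real.exp (w * (11 * A * l) + l - 3 * B * l)) := by
          rw [Real.exp_sub, Real.exp_add]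
          ring
      _ ≤ 2 * D * (X * Real.exp (-1 * l)) := by
          have : w * (11 * A * l) + l - 3 * B * l ≤ -1 * l := by
            rw [hBr]
            have h5 : 0 ≤ (A : ℝ) * w * l := by positivity
            have h6 : 0 ≤ (A : ℝ) * l := by positivity
            nlinarith
          gcongr
  have hzp : (0 : ℝ) < zz X := by exact_mod_cast zz_pos h1'
  have g2 : (w : ℝ) ^ k * (D * X / zz X) ≤ 2 * D * (X * Real.exp (-1 * l)) := by
    have g0 : D * X / zz X ≤ D * X / (Real.exp (l ^ 3) / 2) := by gcongr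
    calc (w : ℝ) ^ k * (D * X / zz X) ≤ Real.exp (w * (11 * A * l)) *
          (D * X / (Real.exp (l ^ 3) / 2)) := by gcongr
      _ = 2 * D * (X * Real.exp (w * (11 * A * l) - l ^ 3)) := by
          rw [Real.exp_sub]
          field_simp
      _ ≤ 2 * D * (X * Real.exp (-1 * l)) := by
          have : w * (11 * A * l) - l ^ 3 ≤ -1 * l := by
            have h5 : T * l ≤ l ^ 2 := by
              have : l ^ 2 = l * l := by ring
              rw [this]
              exact mul_le_mul_of_nonneg_right (by linarith) (by linarith)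
            have h6 : l ^ 2 ≤ l ^ 3 := pow_le_pow_right₀ h1' (by norm_num)
            rw [hT] at h5
            nlinarith
          gcongr
  have hw1 : (0 : ℝ) ≤ (w : ℝ) ^ k := by positivity
  calc _ ≤ (w : ℝ) ^ k * (D * (X * (1 + Real.log X)) / ((HH X ^ B : ℕ) : ℝ) + D * X / zz X) :=
        mul_le_mul_of_nonneg_left hc hw1
    _ ≤ 4 * D * (X * Real.exp (-1 * l)) := by
        rw [mul_add]
        linarith

/-- sets with many primes -/
theorem many (hW : L.S_WALL) {D : ℝ} (h : CntA D) (w A : ℕ) (hw : 1 ≤ w) (hA : w + 1 ≤ A) {δ : ℝ}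
    (hδ : 0 < δ) : ∀ᶠ X : ℕ in atTop,
    ∑ S ∈ (SA X).filter (fun S => A * kk X < S.card), (w : ℝ) ^ S.card ≤
      δ * (X * L1 X ^ (w - 1)) := by
  obtain ⟨C, hC1, hC⟩ := hW RR gpR D (fun X hX => h.all X hX) (2 * w) (by omega)
  have hlim : Tendsto (fun X : ℕ => C * Real.exp (-1 * eL X)) atTop (nhds 0) := by
    have h2 : Tendsto (fun X : ℕ => -1 * eL X) atTop atBot :=
      (eL_tendsto.const_mul_atTop_of_neg (by norm_num))
    have h3 := (Real.tendsto_exp_atBot.comp h2).const_mul C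
    simpa using h3
  have hw0 : (1 : ℝ) ≤ w := by exact_mod_cast hw
  filter_upwards [ev_eL 1, hlim.eventually (gt_mem_nhds hδ)] with X hX hlim
  have h0 : 0 < eL X := by linarith
  have hXp := X_pos h0
  have h1 := hC X hXp
  unfold WS at h1
  rw [SAg_eq] at h1
  set k := A * kk X with hk
  have hL1 : L1 X ≤ Real.exp (2 * eL X) := by
    have h2 := one_add_log h0
    have h3 : (2 : ℝ) ≤ Real.exp (eL X) := by
      have := Real.add_one_le_exp (eL X)
      linarith
    unfold L1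
    refine h2.trans ?_
    calc 2 * Real.exp (eL X) ≤ Real.exp (eL X) * Real.exp (eL X) := by gcongr
      _ = Real.exp (2 * eL X) := by rw [← Real.exp_add]; congr 1; ring
  have hL0 := one_le_L1 X
  have hk2 : Real.exp (6 * A * eL X) ≤ 2 ^ k := by
    have e : (2 : ℝ) ^ k = Real.exp (k * Real.log 2) := by
      rw [mul_comm, Real.exp_mul, Real.exp_log (by norm_num), Real.rpow_natCast]
    rw [e]
    apply Real.exp_le_exp.2
    have h3 := kk_ge X
    have h4 := Real.log_two_gt_d9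
    have hA0 : (0 : ℝ) ≤ A := Nat.cast_nonneg _
    rw [hk]
    push_cast
    have h5 : (A : ℝ) * (10 * eL X) ≤ A * kk X := mul_le_mul_of_nonneg_left h3 hA0
    have h6 : 0 ≤ (A : ℝ) * eL X := by positivity
    nlinarith
  have h3 : (∑ S ∈ (SA X).filter (fun S => k < S.card), (w : ℝ) ^ S.card) * 2 ^ k ≤
      C * (X * L1 X ^ (2 * w - 1)) := by
    refine le_trans ?_ h1
    rw [Finset.sum_mul]
    refine le_trans (Finset.sum_le_sum (f := fun S : Finset RR => (w : ℝ) ^ S.card * 2 ^ k)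
      (g := fun S => ((2 * w : ℕ) : ℝ) ^ S.card) fun S hS => ?_)
      (Finset.sum_le_sum_of_subset_of_nonneg (Finset.filter_subset _ _)
        fun _ _ _ => by positivity)
    rw [mem_filter] at hS
    push_cast
    rw [mul_pow, mul_comm]
    gcongr
    · norm_num
    · exact hS.2.le
  have hsplit : L1 X ^ (2 * w - 1) = L1 X ^ (w - 1) * L1 X ^ w := by
    rw [← pow_add]
    congr 1
    omega
  have hLw : L1 X ^ w ≤ Real.exp (2 * w * eL X) := by
    calc L1 X ^ w ≤ (Real.exp (2 * eL X)) ^ w := by gcongr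
      _ = Real.exp (2 * w * eL X) := by
          rw [← Real.exp_nat_mul]
          congr 1
          ring
  have h4 : (∑ S ∈ (SA X).filter (fun S => k < S.card), (w : ℝ) ^ S.card) ≤
      C * Real.exp (-1 * eL X) * (X * L1 X ^ (w - 1)) := by
    have h5 : (0 : ℝ) < Real.exp (6 * A * eL X) := Real.exp_pos _
    have hs0 : (0 : ℝ) ≤ ∑ S ∈ (SA X).filter (fun S => k < S.card), (w : ℝ) ^ S.card :=
      Finset.sum_nonneg fun _ _ => by positivity
    have hLp : (0 : ℝ) ≤ L1 X ^ (w - 1) := by positivity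
    have hX0 : (0 : ℝ) ≤ X := Nat.cast_nonneg _
    refine le_of_mul_le_mul_right ?_ h5
    calc _ ≤ (∑ S ∈ (SA X).filter (fun S => k < S.card), (w : ℝ) ^ S.card) * 2 ^ k :=
          mul_le_mul_of_nonneg_left hk2 hs0
      _ ≤ C * (X * (L1 X ^ (w - 1) * Real.exp (2 * w * eL X))) := by
          rw [hsplit] at h3
          refine h3.trans ?_
          gcongr
      _ = C * (X * L1 X ^ (w - 1)) * Real.exp (2 * w * eL X) := by ring
      _ ≤ C * (X * L1 X ^ (w - 1)) * Real.exp (-1 * eL X + 6 * A * eL X) := by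
          have hA' : (w : ℝ) + 1 ≤ A := by exact_mod_cast hA
          have : 2 * w * eL X ≤ -1 * eL X + 6 * A * eL X := by nlinarith
          gcongr
      _ = C * Real.exp (-1 * eL X) * (X * L1 X ^ (w - 1)) * Real.exp (6 * A * eL X) := by
          rw [Real.exp_add]
          ring
  refine h4.trans ?_
  gcongr

/-- the sum with weights from the sums over the sets with `m` elements -/
theorem weight_sum {k w : ℕ} (hw : 1 ≤ w) (U : Finset (Finset RR)) (hU : ∀ S ∈ U, S.card ≤ k)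
    (a b : Finset RR → ℝ) {e : ℝ} (he : 0 ≤ e)
    (h : ∀ m ≤ k, |∑ S ∈ U.filter (fun S => S.card = m), a S| ≤
      ∑ S ∈ U.filter (fun S => S.card = m), b S + e) :
    |∑ S ∈ U, (w : ℝ) ^ S.card * a S| ≤
      ∑ S ∈ U, (w : ℝ) ^ S.card * b S + ((k : ℝ) + 1) * (w : ℝ) ^ k * e := by
  have hf : ∀ f : Finset RR → ℝ, ∑ S ∈ U, (w : ℝ) ^ S.card * f S =
      ∑ m ∈ range (k + 1), (w : ℝ) ^ m * ∑ S ∈ U.filter (fun S => S.card = m), f S := by
    intro f
    rw [← Finset.sum_fiberwise_of_maps_to (g := fun S : Finset RR => S.card)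
      (t := range (k + 1)) (fun S hS => mem_range.2 (Nat.lt_succ_of_le (hU S hS)))]
    refine Finset.sum_congr rfl fun m _ => ?_
    rw [Finset.mul_sum]
    refine Finset.sum_congr rfl fun S hS => ?_
    rw [(mem_filter.1 hS).2]
  have hw1 : (1 : ℝ) ≤ w := by exact_mod_cast hw
  rw [hf a, hf b]
  refine (Finset.abs_sum_le_sum_abs _ _).trans ?_
  have h1 : ∀ m ∈ range (k + 1), |(w : ℝ) ^ m * ∑ S ∈ U.filter (fun S => S.card = m), a S| ≤
      (w : ℝ) ^ m * ∑ S ∈ U.filter (fun S => S.card = m), b S + (w : ℝ) ^ k * e := by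
    intro m hm
    have hmk : m ≤ k := Nat.lt_succ_iff.1 (mem_range.1 hm)
    rw [abs_mul, abs_of_nonneg (by positivity : (0 : ℝ) ≤ (w : ℝ) ^ m)]
    calc (w : ℝ) ^ m * |∑ S ∈ U.filter (fun S => S.card = m), a S| ≤
        (w : ℝ) ^ m * (∑ S ∈ U.filter (fun S => S.card = m), b S + e) :=
          mul_le_mul_of_nonneg_left (h m hmk) (by positivity)
      _ = (w : ℝ) ^ m * ∑ S ∈ U.filter (fun S => S.card = m), b S + (w : ℝ) ^ m * e := by ring
      _ ≤ _ := by
          have : (w : ℝ) ^ m ≤ (w : ℝ) ^ k := pow_le_pow_right₀ hw1 hmk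
          gcongr
  refine (Finset.sum_le_sum h1).trans ?_
  rw [Finset.sum_add_distrib, Finset.sum_const, card_range, nsmul_eq_mul]
  push_cast
  linarith

/-- the indicator -/
noncomputable def ind (p : Prop) : ℝ := if p then 1 else 0

theorem ind_nonneg (p : Prop) : 0 ≤ ind p := by
  unfold ind
  split_ifs <;> norm_num

theorem ind_one {p : Prop} (h : p) : ind p = 1 := by
  unfold ind
  rw [if_pos h]

theorem sum_ind (U : Finset (Finset RR)) (P : Finset RR → Prop) :
    ∑ S ∈ U, ind (P S) = ((U.filter P).card : ℝ) := by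
  unfold ind
  rw [Finset.card_filter]
  push_cast
  rfl

/-- near the boundary -/
def Cut (X z H : ℕ) (S : Finset RR) : Prop :=
  X < (∏ π ∈ sm z S, nrm π) * ∏ π ∈ la z S, XX H (bl H π)

/-- two primes in one block -/
def Col (z H : ℕ) (S : Finset RR) : Prop := ¬ Set.InjOn (bl H) (la z S : Set RR)

/-- the sets with at most `k` elements -/
noncomputable def SK (X k : ℕ) : Finset (Finset RR) := (SA X).filter fun S => S.card ≤ k

/-- the sets with `m` elements -/
noncomputable def Sk (X k m : ℕ) : Finset (Finset RR) := (SK X k).filter fun S => S.card = m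

section main

variable {I I' Q : Type}

/-- the statement for a fixed colouring -/
theorem per_col (γ : RR → Q) (E : I → Finset Q) (F : I' → Finset Q) (K X z H k m : ℕ) (hm : m ≤ k)
    {g ε e : ℝ} (hg0 : 0 ≤ g) (hg1 : g ≤ 1) (hε : 0 ≤ ε)
    (hmain : |((((RgC γ E F X z H k).filter fun S => S.card = m).filter fun S =>
          NdC K γ (sm z S) (la z S) ∧ GdC γ E S).card : ℝ) -
        g * ((((RgC γ E F X z H k).filter fun S => S.card = m).filter fun S =>
          NdC K γ (sm z S) (la z S)).card : ℝ)| ≤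
      ε * (((RgC γ E F X z H k).filter fun S => S.card = m).card : ℝ) + e) :
    |(((Sk X k m).filter fun S => PG E F S γ).card : ℝ) -
        g * (((Sk X k m).filter fun S => PC E F S γ).card : ℝ)| ≤
      (∑ S ∈ Sk X k m, (ε + ind (Cut X z H S) + ind (Col z H S)) + e) +
      (((Sk X k m).filter fun S => PN K z S γ).card : ℝ) := by
  set T := ((RgC γ E F X z H k).filter fun S => S.card = m).filter
    fun S => NdC K γ (sm z S) (la z S) with hT
  set A := (Sk X k m).filter fun S => PC E F S γ with hA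
  have hTG : ((((RgC γ E F X z H k).filter fun S => S.card = m).filter
      (fun S => NdC K γ (sm z S) (la z S) ∧ GdC γ E S)).card) = (T.filter (GdC γ E)).card := by
    rw [hT]
    exact congrArg Finset.card (Finset.filter_filter _ _ _).symm
  rw [hTG] at hmain
  have hRS : (RgC γ E F X z H k).filter (fun S => S.card = m) ⊆ Sk X k m := by
    intro S hS
    rw [mem_filter] at hS
    have h1 := hS.1
    unfold RgC at h1
    rw [mem_filter] at h1
    unfold Sk SK
    rw [mem_filter, mem_filter]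
    exact ⟨⟨h1.1, h1.2.2.1⟩, hS.2⟩
  have hTA : T ⊆ A := by
    intro S hS
    rw [hT, mem_filter] at hS
    have h1 := (mem_filter.1 hS.1).1
    unfold RgC at h1
    rw [mem_filter] at h1
    rw [hA, mem_filter]
    exact ⟨hRS hS.1, h1.2.2.2.2.1, h1.2.2.2.2.2⟩
  have hAG : ((Sk X k m).filter fun S => PG E F S γ).card = (A.filter (GdC γ E)).card := by
    rw [hA, filter_filter]
    congr 1
    refine filter_congr fun S _ => ?_
    unfold PG PC
    exact and_assoc.symm
  have hRc : (((RgC γ E F X z H k).filter fun S => S.card = m).card : ℝ) ≤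
      ((Sk X k m).card : ℝ) := by
    exact_mod_cast card_le_card hRS
  have hcmp := cmp (GdC γ E) T A hTA g hg0 hg1
  have hout : ((A \ T).card : ℝ) ≤
      ∑ S ∈ Sk X k m, (ind (Cut X z H S) + ind (Col z H S) + ind (PN K z S γ)) := by
    have h1 : ∀ S ∈ A \ T, (1 : ℝ) ≤ ind (Cut X z H S) + ind (Col z H S) + ind (PN K z S γ) := by
      intro S hS
      have n1 := ind_nonneg (Cut X z H S)
      have n2 := ind_nonneg (Col z H S)
      have n3 := ind_nonneg (PN K z S γ)
      by_cases c1 : Cut X z H S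
      · rw [ind_one c1]
        linarith
      by_cases c2 : Col z H S
      · rw [ind_one c2]
        linarith
      by_cases c3 : PN K z S γ
      · rw [ind_one c3]
        linarith
      exfalso
      rw [Finset.mem_sdiff, hA, mem_filter] at hS
      obtain ⟨⟨h2, h3⟩, h4⟩ := hS
      apply h4
      unfold Sk SK at h2
      rw [mem_filter, mem_filter] at h2
      unfold Col at c2
      rw [not_not] at c2
      unfold PN at c3
      rw [not_not] at c3
      rw [hT, mem_filter, mem_filter]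
      refine ⟨⟨?_, h2.2⟩, c3⟩
      unfold RgC
      rw [mem_filter]
      exact ⟨h2.1.1, c2, h2.1.2, not_lt.1 c1, h3.1, h3.2⟩
    have h2 : ((A \ T).card : ℝ) ≤
        ∑ S ∈ A \ T, (ind (Cut X z H S) + ind (Col z H S) + ind (PN K z S γ)) := by
      calc ((A \ T).card : ℝ) = ∑ S ∈ A \ T, (1 : ℝ) := by
            rw [Finset.sum_const, nsmul_eq_mul, mul_one]
        _ ≤ _ := Finset.sum_le_sum h1
    refine h2.trans (Finset.sum_le_sum_of_subset_of_nonneg
      (sdiff_subset.trans (filter_subset _ _)) fun S _ _ => ?_)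
    have n1 := ind_nonneg (Cut X z H S)
    have n2 := ind_nonneg (Col z H S)
    have n3 := ind_nonneg (PN K z S γ)
    linarith
  rw [Finset.sum_add_distrib, sum_ind (Sk X k m) (fun S => PN K z S γ)] at hout
  have e1 : ∑ S ∈ Sk X k m, (ε + ind (Cut X z H S) + ind (Col z H S)) =
      ε * ((Sk X k m).card : ℝ) + ∑ S ∈ Sk X k m, (ind (Cut X z H S) + ind (Col z H S)) := by
    rw [← nsmul_eq_mul', ← Finset.sum_const, ← Finset.sum_add_distrib]
    exact Finset.sum_congr rfl fun S _ => by ring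
  have g1 : ε * (((RgC γ E F X z H k).filter fun S => S.card = m).card : ℝ) ≤
      ε * ((Sk X k m).card : ℝ) := mul_le_mul_of_nonneg_left hRc hε
  rw [hAG, e1]
  linarith

end main

theorem pr_nonneg {R Q : Type} [Fintype Q] [Nonempty Q] (S : Finset R) (P : (R → Q) → Prop) :
    0 ≤ pr S P := by
  unfold pr
  positivity

theorem pr_le_one {R Q : Type} [Fintype Q] [Nonempty Q] (S : Finset R) (P : (R → Q) → Prop) :
    pr S P ≤ 1 := by
  have hQ : (0 : ℝ) < Fintype.card Q := by exact_mod_cast Fintype.card_pos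
  unfold pr
  rw [div_le_one (pow_pos hQ _)]
  have h1 := Finset.card_filter_le (univ : Finset (S → Q)) (fun c => P (exC S c))
  rw [Finset.card_univ, Fintype.card_fun, Fintype.card_coe] at h1
  exact_mod_cast h1

/-- **QA-ASY.** -/
theorem t_ASYA (hR : RecP) (h1 : S_BIL) (h3 : S_EQ) (h4 : QT.L.S_LAC) (h5 : S_BOXC) (hK : S_KEYM)
    (hC : S_CNTA) (hHa : S_HALL) (hMe : S_MERT) (hWA : L.S_WALL) (hWH : L.S_WH) (hF : S_WFBC)
    (hAV : G.S_AV2) (hc2 : S_C2) : S_ASYA := by
  intro I I' Q _ _ _ _ E F hFam w hw ε hε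
  obtain ⟨C, hC1, hkey⟩ := hK hR h1 h3 h5 I I' Q E F hFam
  obtain ⟨D, hD⟩ := hC
  have hD1 := hD.one
  obtain ⟨V, hV1, hV2⟩ := hWA RR gpR D (fun X hX => hD.all X hX) w hw
  have hg0 : (0 : ℝ) ≤ c2 ^ Fintype.card I := pow_nonneg hc2.2.1.le _
  have hg1 : (c2 : ℝ) ^ Fintype.card I ≤ 1 := pow_le_one₀ hc2.2.1.le hc2.2.2.1.le
  have hε' : (0 : ℝ) < ε / (8 * V) := by positivity
  obtain ⟨K, hV⟩ := h4 I Q E hFam (ε / (8 * V)) hε'
  have hV' : LAEC E (ε / (8 * V)) K := laec_of hV
  obtain ⟨A, hA⟩ : ∃ A : ℕ, A = w + 1 := ⟨_, rfl⟩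
  obtain ⟨B, hB⟩ : ∃ B : ℕ, B = 4 * A * (w + 1) + 2 := ⟨_, rfl⟩
  obtain ⟨X₁, hFB⟩ := hF hR hHa hMe hWA hWH Q w A K (ε / 8) hw (by linarith)
  have s2 := sml_cut hD A w (by omega)
  have s3 := sml_coll hD A w (by omega)
  rw [← hB] at s2 s3
  have s6 := sml_main hC1 A B w
  have s := sml_add (sml_add s2 s3) s6
  have smn := many hWA hD w A hw (by omega) (show 0 < ε / 8 by linarith)
  have hev := (s (ε / 8) (by linarith)).and (smn.and ((ev_eL 1).and (eventually_ge_atTop X₁)))
  obtain ⟨X₀, hX₀⟩ := eventually_atTop.1 hev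
  refine ⟨X₀, fun X hXX => ?_⟩
  obtain ⟨hX, hmany, hl, hX1⟩ := hX₀ X hXX
  rw [neg_zero, zero_mul, Real.exp_zero, mul_one] at hX
  have hl0 : 0 < eL X := by linarith
  have hXp := X_pos hl0
  have hXp' : (0 : ℝ) < X := by exact_mod_cast hXp
  have hHH : 1 ≤ HH X ^ B := Nat.one_le_pow _ _ (HH_pos hl0)
  have hN : ((HH X ^ B : ℕ) : ℝ) * Real.log X < NB B X := by
    unfold NB
    push_cast
    exact Nat.lt_floor_add_one _
  have hBsub : ∀ S ∈ SA X, S ⊆ QB X := by
    intro S hS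
    unfold SA at hS
    exact Finset.mem_powerset.1 (Finset.mem_filter.1 hS).1
  set k := A * kk X with hk
  set H := HH X ^ B with hH
  set Wt : ℝ := (Fintype.card Q : ℝ) ^ (QB X).card with hWt
  have hQ0 : (0 : ℝ) < Fintype.card Q := by exact_mod_cast Fintype.card_pos
  have hW0 : 0 < Wt := pow_pos hQ0 _
  have hcW : ∀ F : Fintype (QB X → Q), ((@Fintype.card (QB X → Q) F : ℕ) : ℝ) = Wt := by
    intro F
    rw [← @Nat.card_eq_fintype_card _ F, Nat.card_fun, Nat.card_eq_fintype_card,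
      Nat.card_eq_fintype_card, Fintype.card_coe]
    push_cast
    rfl
  set er : ℝ := (C * ((NB B X : ℝ) + 1)) ^ k * (3 ^ (9 * k ^ 2 + 9) * kap C X) *
    (X * (1 + Real.log X)) with her
  have her0 : 0 ≤ er := by
    have h1 := kap_nonneg hC1 X
    have h2 : 0 ≤ 1 + Real.log X := by
      have := Real.log_natCast_nonneg X
      linarith
    positivity
  have hSksub : ∀ m, ∀ S ∈ Sk X k m, S ⊆ QB X := by
    intro m S hS
    unfold Sk SK at hS
    exact hBsub S (mem_filter.1 (mem_filter.1 hS).1).1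
  -- the statement for the sets with `m` elements
  have hm : ∀ m ≤ k, |∑ S ∈ (SK X k).filter (fun S => S.card = m),
      (pr S (PG E F S) - c2 ^ Fintype.card I * pr S (PC E F S))| ≤
      ∑ S ∈ (SK X k).filter (fun S => S.card = m), (ε / (8 * V) + ind (Cut X (zz X) H S) +
        ind (Col (zz X) H S) + pr S (PN (Q := Q) K (zz X) S)) + er := by
    intro m hmk
    have a1 := hAV RR Q (QB X) (Sk X k m) (PG E F) (hSksub m) fun S _ => dep_PG E F S
    have a2 := hAV RR Q (QB X) (Sk X k m) (PC E F) (hSksub m) fun S _ => dep_PC E F S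
    have a3 := hAV RR Q (QB X) (Sk X k m) (PN K (zz X)) (hSksub m)
      fun S _ => dep_PN K (zz X) S
    have hper : ∀ c : QB X → Q,
        |(((Sk X k m).filter fun S => PG E F S (exC (QB X) c)).card : ℝ) -
          c2 ^ Fintype.card I * (((Sk X k m).filter fun S => PC E F S (exC (QB X) c)).card : ℝ)| ≤
        (∑ S ∈ Sk X k m, (ε / (8 * V) + ind (Cut X (zz X) H S) + ind (Col (zz X) H S)) + er) +
          (((Sk X k m).filter fun S => PN K (zz X) S (exC (QB X) c)).card : ℝ) := by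
      intro c
      exact per_col (exC (QB X) c) E F K X (zz X) H k m hmk hg0 hg1 hε'.le
        (hkey (exC (QB X) c) (ε / (8 * V)) K hε' hV' X (zz X) H k (NB B X) m (kap C X) hXp
          hHH (zz_pos hl) (kap_nonneg hC1 X) (kap_pow hC1 hl) hN)
    have e0 : ∑ S ∈ (SK X k).filter (fun S => S.card = m),
        (pr S (PG E F S) - c2 ^ Fintype.card I * pr S (PC E F S)) =
        ∑ S ∈ Sk X k m, pr S (PG E F S) - c2 ^ Fintype.card I * ∑ S ∈ Sk X k m, pr S (PC E F S) := by
      rw [Finset.sum_sub_distrib, ← Finset.mul_sum]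
      rfl
    have e1 : ∑ S ∈ (SK X k).filter (fun S => S.card = m), (ε / (8 * V) + ind (Cut X (zz X) H S) +
        ind (Col (zz X) H S) + pr S (PN (Q := Q) K (zz X) S)) =
        ∑ S ∈ Sk X k m, (ε / (8 * V) + ind (Cut X (zz X) H S) + ind (Col (zz X) H S)) +
          ∑ S ∈ Sk X k m, pr S (PN (Q := Q) K (zz X) S) := by
      rw [Finset.sum_add_distrib]
      rfl
    rw [e0, e1, a1, a2, a3, ← hWt]
    have e2 : ∀ a b : ℝ, a / Wt - c2 ^ Fintype.card I * (b / Wt) =
        (a - c2 ^ Fintype.card I * b) / Wt := by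
      intro a b
      rw [sub_div, mul_div_assoc]
    rw [e2, abs_div, abs_of_pos hW0, div_le_iff₀ hW0]
    have alg : ∀ a b c : ℝ, (a + c) * Wt + b = (a + b / Wt + c) * Wt := by
      intro a b c
      field_simp
      ring
    exact le_trans (avg_bound _ _ _ _ (hcW _) hper) (le_of_eq (alg _ _ _))
  have hws := weight_sum hw (SK X k) (fun S hS => (mem_filter.1 hS).2)
    (fun S => pr S (PG E F S) - c2 ^ Fintype.card I * pr S (PC E F S))
    (fun S => ε / (8 * V) + ind (Cut X (zz X) H S) +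
        ind (Col (zz X) H S) + pr S (PN (Q := Q) K (zz X) S)) her0 hm
  -- the bounds
  have hw0 : (0 : ℝ) ≤ w := Nat.cast_nonneg _
  have hL0 := one_le_L1 X
  have hLp : (1 : ℝ) ≤ L1 X ^ (w - 1) := one_le_pow₀ hL0
  have hXL : (X : ℝ) ≤ X * L1 X ^ (w - 1) := le_mul_of_one_le_right hXp'.le hLp
  have b1 : ∑ S ∈ SK X k, (w : ℝ) ^ S.card * (ε / (8 * V)) ≤ ε / 8 * (X * L1 X ^ (w - 1)) := by
    rw [← Finset.sum_mul]
    have g1 : ∑ S ∈ SK X k, (w : ℝ) ^ S.card ≤ V * (X * L1 X ^ (w - 1)) := by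
      refine le_trans ?_ (hV2 X hXp)
      exact Finset.sum_le_sum_of_subset_of_nonneg (filter_subset _ _) fun _ _ _ => by positivity
    calc (∑ S ∈ SK X k, (w : ℝ) ^ S.card) * (ε / (8 * V)) ≤
        (V * (X * L1 X ^ (w - 1))) * (ε / (8 * V)) := by gcongr
      _ = ε / 8 * (X * L1 X ^ (w - 1)) := by
          field_simp
  have b2 : ∀ P : Finset RR → Prop, ∑ S ∈ SK X k, (w : ℝ) ^ S.card * ind (P S) ≤
      (w : ℝ) ^ k * (((SK X k).filter P).card : ℝ) := by
    intro P
    rw [← sum_ind, Finset.mul_sum]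
    refine Finset.sum_le_sum fun S hS => ?_
    have h1 : (w : ℝ) ^ S.card ≤ (w : ℝ) ^ k :=
      pow_le_pow_right₀ (by exact_mod_cast hw) (mem_filter.1 hS).2
    exact mul_le_mul_of_nonneg_right h1 (ind_nonneg _)
  have b3 := b2 (Cut X (zz X) H)
  have b4 := b2 (Col (zz X) H)
  have c3 : (((SK X k).filter (Cut X (zz X) H)).card : ℝ) = (((SA X).filter fun S =>
      S.card ≤ A * kk X ∧ X < (∏ π ∈ sm (zz X) S, nrm π) * ∏ π ∈ la (zz X) S,
        XX (HH X ^ B) (bl (HH X ^ B) π)).card : ℝ) := by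
    unfold SK
    rw [filter_filter]
    congr 2
    ext S
    simp only [mem_filter, Cut, hk, hH]
  have c4 : (((SK X k).filter (Col (zz X) H)).card : ℝ) ≤ (((SA X).filter fun S =>
      ¬ Set.InjOn (bl (HH X ^ B)) (la (zz X) S : Set RR)).card : ℝ) := by
    have : (SK X k).filter (Col (zz X) H) ⊆ (SA X).filter fun S =>
        ¬ Set.InjOn (bl (HH X ^ B)) (la (zz X) S : Set RR) := by
      intro S hS
      unfold SK at hS
      rw [mem_filter, mem_filter] at hS
      rw [mem_filter]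
      exact ⟨hS.1.1, hS.2⟩
    exact_mod_cast card_le_card this
  have c4' : (w : ℝ) ^ k * (((SK X k).filter (Col (zz X) H)).card : ℝ) ≤
      (w : ℝ) ^ k * (((SA X).filter fun S =>
      ¬ Set.InjOn (bl (HH X ^ B)) (la (zz X) S : Set RR)).card : ℝ) :=
    mul_le_mul_of_nonneg_left c4 (by positivity)
  rw [c3] at b3
  have b5 : ∑ S ∈ SK X k, (w : ℝ) ^ S.card * pr S (PN (Q := Q) K (zz X) S) ≤
      ε / 8 * (X * L1 X ^ (w - 1)) := hFB X hX1
  have hb : ∑ S ∈ SK X k, (w : ℝ) ^ S.card * (ε / (8 * V) + ind (Cut X (zz X) H S) +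
        ind (Col (zz X) H S) + pr S (PN (Q := Q) K (zz X) S)) =
      ∑ S ∈ SK X k, (w : ℝ) ^ S.card * (ε / (8 * V)) +
      ∑ S ∈ SK X k, (w : ℝ) ^ S.card * ind (Cut X (zz X) H S) +
      ∑ S ∈ SK X k, (w : ℝ) ^ S.card * ind (Col (zz X) H S) +
      ∑ S ∈ SK X k, (w : ℝ) ^ S.card * pr S (PN (Q := Q) K (zz X) S) := by
    rw [← Finset.sum_add_distrib, ← Finset.sum_add_distrib, ← Finset.sum_add_distrib]
    exact Finset.sum_congr rfl fun S _ => by ring
  rw [hb] at hws
  -- the sets with many primes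
  have hout : |∑ S ∈ (SA X).filter (fun S => ¬ S.card ≤ k), (w : ℝ) ^ S.card *
      (pr S (PG E F S) - c2 ^ Fintype.card I * pr S (PC E F S))| ≤
      ε / 8 * (X * L1 X ^ (w - 1)) := by
    refine (Finset.abs_sum_le_sum_abs _ _).trans ?_
    have e1 : (SA X).filter (fun S => ¬ S.card ≤ k) =
        (SA X).filter (fun S => A * kk X < S.card) := by
      refine filter_congr fun S _ => ?_
      rw [not_le]
    rw [e1]
    refine le_trans (Finset.sum_le_sum fun S _ => ?_) hmany
    rw [abs_mul, abs_of_nonneg (by positivity : (0 : ℝ) ≤ (w : ℝ) ^ S.card)]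
    have h2 : |pr S (PG E F S) - c2 ^ Fintype.card I * pr S (PC E F S)| ≤ 1 := by
      have p1 := pr_nonneg S (PG E F S)
      have p2 := pr_le_one S (PG E F S)
      have p3 := pr_nonneg S (PC E F S)
      have p4 := pr_le_one S (PC E F S)
      have p5 : c2 ^ Fintype.card I * pr S (PC E F S) ≤ 1 := by
        calc c2 ^ Fintype.card I * pr S (PC E F S) ≤ 1 * 1 := by gcongr
          _ = 1 := one_mul 1
      have p6 : 0 ≤ c2 ^ Fintype.card I * pr S (PC E F S) := by positivity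
      rw [abs_le]
      constructor <;> linarith
    calc (w : ℝ) ^ S.card * |pr S (PG E F S) - c2 ^ Fintype.card I * pr S (PC E F S)| ≤
        (w : ℝ) ^ S.card * 1 := by gcongr
      _ = (w : ℝ) ^ S.card := mul_one _
  have hsplit : ∑ S ∈ SA X, (w : ℝ) ^ S.card * pr S (PG E F S) -
      c2 ^ Fintype.card I * ∑ S ∈ SA X, (w : ℝ) ^ S.card * pr S (PC E F S) =
      ∑ S ∈ SK X k, (w : ℝ) ^ S.card *
        (pr S (PG E F S) - c2 ^ Fintype.card I * pr S (PC E F S)) +
      ∑ S ∈ (SA X).filter (fun S => ¬ S.card ≤ k), (w : ℝ) ^ S.card *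
        (pr S (PG E F S) - c2 ^ Fintype.card I * pr S (PC E F S)) := by
    unfold SK
    rw [Finset.sum_filter_add_sum_filter_not, Finset.mul_sum, ← Finset.sum_sub_distrib]
    exact Finset.sum_congr rfl fun S _ => by ring
  show |∑ S ∈ SA X, (w : ℝ) ^ S.card * pr S (PG E F S) -
      c2 ^ Fintype.card I * ∑ S ∈ SA X, (w : ℝ) ^ S.card * pr S (PC E F S)| ≤
        ε * (X * L1 X ^ (w - 1))
  rw [hsplit]
  refine (abs_add_le _ _).trans ?_
  have hε8 : ε / 8 * X ≤ ε / 8 * (X * L1 X ^ (w - 1)) := by gcongr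
  have hpos : 0 ≤ ε * (X * L1 X ^ (w - 1)) := by positivity
  linarith

end Pool.Agent.N869.QA.ASYA
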