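import Pool.Agent.R426.QK.FB
import Pool.Agent.R426.QK.KEY1
import Pool.Agent.N637.QT.MQ
import Pool.Agent.N869.QT.FINR
import Pool.Agent.N869.QA.ASYA

/-!
# Project QA (helper869): the exact proportion among all the tuples of elements of `RR`
-/

set_option autoImplicit false
set_option linter.unusedVariables false

open scoped Classical

namespace Pool.Agent.N869.QA.FINA

open Finset Filter
open Pool.Agent.Y698
open Pool.Agent.Y698.SG hiding PD
open Pool.Agent.R426.QK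
open Pool.Agent.N869.QT
open Pool.Agent.N869.QT.G (sys exC pr Qn ET)
open Pool.Agent.N869.QA.L (GP SAg WS L1 Up Lo Sav)
open Pool.Agent.N869.QA.ASYA (one_le_L1 pr_nonneg pr_le_one)

/-- the sum over the sets is the sum over the elements -/
theorem sum_SA_le (g : RR → ℝ) (hg : ∀ π, 0 ≤ g π) (X : ℕ) :
    ∑ S ∈ SA X, ∏ π ∈ S, g π ≤ ∑ a ∈ SB X, mf g a := by
  have hS : ∀ S ∈ SA X, (∀ π ∈ S, Pq π) ∧ ∏ π ∈ S, nrm π ≤ X := by
    intro S hS
    unfold SA at hS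
    rw [mem_filter, mem_powerset] at hS
    exact ⟨fun π hπ => (mem_QB.1 (hS.1 hπ)).2, hS.2⟩
  refine FB.sum_le_inj (fun S => ∏ π ∈ S, π) ?_ ?_ ?_ ?_
  · intro S h
    rw [FB.mem_SB, FB.nrm_prod]
    exact ⟨(hS S h).2, (PS_prod (hS S h).1).1⟩
  · intro S h S' h' he
    rw [← (PS_prod (hS S h).1).2, ← (PS_prod (hS S' h').1).2, he]
  · intro S h
    unfold mf
    rw [(PS_prod (hS S h).1).2]
  · intro a _
    exact FB.mf_nonneg hg a

theorem lgn_pow_le {T : ℕ} (hT : 1 ≤ T) : (lgn T) ^ (-(1 / 3) : ℝ) ≤ 2 * L1 T ^ (-(1 / 3) : ℝ) := by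
  have h1 := FB.log_le_lgn hT
  have h2 := FB.one_le_lgn T
  have h3 := one_le_L1 T
  have h4 : L1 T / 2 ≤ lgn T := by
    unfold L1
    linarith
  calc (lgn T) ^ (-(1 / 3) : ℝ) ≤ (L1 T / 2) ^ (-(1 / 3) : ℝ) :=
        Real.rpow_le_rpow_of_nonpos (by linarith) h4 (by norm_num)
    _ = L1 T ^ (-(1 / 3) : ℝ) * 2 ^ (1 / 3 : ℝ) := by
        rw [Real.div_rpow (by linarith) (by norm_num), div_eq_mul_inv, ← Real.rpow_neg (by norm_num),
          neg_neg]
    _ ≤ L1 T ^ (-(1 / 3) : ℝ) * 2 := by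
        have h5 : (2 : ℝ) ^ (1 / 3 : ℝ) ≤ 2 := by
          calc (2 : ℝ) ^ (1 / 3 : ℝ) ≤ 2 ^ (1 : ℝ) :=
                Real.rpow_le_rpow_of_exponent_le (by norm_num) (by norm_num)
            _ = 2 := Real.rpow_one _
        exact mul_le_mul_of_nonneg_left h5 (Real.rpow_nonneg (by linarith) _)
    _ = _ := by ring

/-- the norms `3` modulo `4` -/
theorem sav_tt (hH : S_HALL) : ∃ B : ℝ, 0 ≤ B ∧
    Sav gpR (fun π => if tt π = 1 then 1 / 3 else 1) B := by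
  obtain ⟨C, hC1, hC⟩ := hH
  refine ⟨C * (lgn (nrm 1)) ^ (1 / 3 : ℝ) * 2, by
    have := (FB.lgn_pos (nrm (1 : RR))).le
    positivity, ?_⟩
  intro X hX
  rw [SAg_eq]
  set g : RR → ℝ := fun π => (2 + (xr 1 0 1 π).re) / 3 with hg
  have hx : ∀ π : RR, xr 1 0 1 π = kp π := by
    intro π
    unfold xr jac
    rw [PD_one, Finset.prod_empty, pow_zero, pow_one, one_mul, one_mul]
  have hkp : ∀ π : RR, (kp π).re = 1 ∨ (kp π).re = -1 ∨ (kp π).re = 0 := by
    intro π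
    unfold kp
    split_ifs
    · left; simp
    · right; left; simp
    · right; right; simp
  have hg0 : ∀ π, 0 ≤ g π := by
    intro π
    rw [hg]
    simp only
    rw [hx]
    rcases hkp π with h | h | h <;> rw [h] <;> norm_num
  have h1 : ∑ S ∈ SA X, ∏ π ∈ S, (if tt π = 1 then (1 / 3 : ℝ) else 1) =
      ∑ S ∈ SA X, ∏ π ∈ S, g π := by
    refine Finset.sum_congr rfl fun S hS => Finset.prod_congr rfl fun π hπ => ?_
    unfold SA at hS
    rw [mem_filter, mem_powerset] at hS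
    have hq := (mem_QB.1 (hS.1 hπ)).2
    rw [hg]
    simp only
    rw [hx]
    rcases KEY.nrm_odd hq.prm with h | h
    · rw [if_neg (by rw [KEY.tt_one]; omega)]
      unfold kp
      rw [if_pos h]
      norm_num
    · rw [if_pos (KEY.tt_one.2 h)]
      unfold kp
      rw [if_neg (by omega), if_pos h]
      norm_num
  rw [h1]
  refine (sum_SA_le g hg0 X).trans ?_
  refine (hC 1 0 1 PS_one (by norm_num) (by norm_num) (Or.inr (Or.inr (by norm_num))) X).trans ?_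
  have h2 := lgn_pow_le hX
  have h3 : (0 : ℝ) ≤ C * (lgn (nrm 1)) ^ (1 / 3 : ℝ) := by
    have := (FB.lgn_pos (nrm (1 : RR))).le
    positivity
  calc C * (lgn (nrm 1)) ^ (1 / 3 : ℝ) * (X * (lgn X) ^ (-(1 / 3) : ℝ)) ≤
      C * (lgn (nrm 1)) ^ (1 / 3 : ℝ) * (X * (2 * L1 X ^ (-(1 / 3) : ℝ))) := by gcongr
    _ = _ := by ring

/-- the number of the colours -/
theorem card_Qn (n : ℕ) : Fintype.card (Qn n) = 2 ^ n - 1 := by
  rw [Fintype.card_subtype]
  have h : (univ.filter fun q : Finset (Fin n) => q.Nonempty) = univ.erase ∅ := by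
    ext q
    rw [mem_filter, mem_erase, Finset.nonempty_iff_ne_empty]
    exact ⟨fun h => ⟨h.2, h.1⟩, fun h => ⟨h.2, h.1⟩⟩
  have h2 : (univ.filter fun q : Finset (Fin n) => q.Nonempty).card = 2 ^ n - 1 := by
    rw [h, card_erase_of_mem (mem_univ _), card_univ, Fintype.card_finset, Fintype.card_fin]
  rw [← h2]

/-- the counts of the tuples -/
theorem three (hN : S_NST) {n : ℕ} [Nonempty (Qn n)] {S : Finset RR} (hSq : ∀ π ∈ S, Pq π)
    (𝒯 : Finset (Qn n)) {W : ℝ} (hW : W = (Fintype.card (Qn n) : ℝ) ^ S.card) :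
    (TupR n S).Finite ∧
    ((TupR n S).ncard : ℝ) = (pr S (fun γ : RR → Qn n => G.ClC tt γ ET S) -
      pr S (fun γ : RR → Qn n => G.ClC tt γ ET S ∧ ∃ T : Qn n, sys γ ET S T = ∅)) * W ∧
    ({x ∈ TupR n S | GoR 𝒯 x}.ncard : ℝ) ≤
      pr S (fun γ : RR → Qn n => G.ClC tt γ ET S ∧ ∀ T ∈ 𝒯, Gd (sys γ ET S T)) * W ∧
    (pr S (fun γ : RR → Qn n => G.ClC tt γ ET S ∧ ∀ T ∈ 𝒯, Gd (sys γ ET S T)) -
      pr S (fun γ : RR → Qn n => G.ClC tt γ ET S ∧ ∃ T : Qn n, sys γ ET S T = ∅)) * W ≤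
      ({x ∈ TupR n S | GoR 𝒯 x}.ncard : ℝ) := by
  have hT0 : {x ∈ TupR n S | GoR (∅ : Finset (Qn n)) x} = TupR n S := by
    ext x
    constructor
    · exact fun hx => hx.1
    · exact fun hx => ⟨hx, fun T hT => absurd hT (Finset.notMem_empty T)⟩
  obtain ⟨f0, e0⟩ := hN n S hSq ∅
  obtain ⟨f1, e1⟩ := hN n S hSq 𝒯
  rw [hT0] at f0 e0
  have k1 := FINR.card_pr S (fun γ : RR → Qn n => G.ClC tt γ ET S) (D := Classical.decPred _)
  have k2 := FINR.card_pr S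
    (fun γ : RR → Qn n => G.ClC tt γ ET S ∧ ∀ T ∈ 𝒯, Gd (sys γ ET S T))
    (D := Classical.decPred _)
  have k3 := FINR.card_pr S
    (fun γ : RR → Qn n => G.ClC tt γ ET S ∧ ∃ T : Qn n, sys γ ET S T = ∅)
    (D := Classical.decPred _)
  rw [← hW] at k1 k2 k3
  have c1 : ((TupR n S).ncard : ℝ) +
      ((@Finset.filter _ (fun c : S → Qn n => G.ClC tt (exC S c) ET S ∧
        ∃ T : Qn n, sys (exC S c) ET S T = ∅) (Classical.decPred _) univ).card : ℝ) =
      ((@Finset.filter _ (fun c : S → Qn n => G.ClC tt (exC S c) ET S)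
        (Classical.decPred _) univ).card : ℝ) := by
    rw [e0, ← Nat.cast_add]
    congr 1
    rw [← Finset.card_union_of_disjoint]
    · congr 1
      ext c
      simp only [mem_union, mem_filter, mem_univ, true_and]
      constructor
      · rintro (h5 | h5)
        · exact h5.1
        · exact h5.1
      · intro h5
        by_cases h6 : ∃ T : Qn n, sys (exC S c) ET S T = ∅
        · exact Or.inr ⟨h5, h6⟩
        · refine Or.inl ⟨h5, fun T hT => h6 ⟨T, hT⟩, fun T hT => absurd hT (Finset.notMem_empty T)⟩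
    · rw [Finset.disjoint_left]
      intro c hc hc'
      simp only [Finset.mem_filter] at hc hc'
      obtain ⟨T, hT⟩ := hc'.2.2
      exact hc.2.2.1 T hT
  have c2' : ({x ∈ TupR n S | GoR 𝒯 x}.ncard : ℝ) ≤
      ((@Finset.filter _ (fun c : S → Qn n => G.ClC tt (exC S c) ET S ∧
        ∀ T ∈ 𝒯, Gd (sys (exC S c) ET S T)) (Classical.decPred _) univ).card : ℝ) := by
    rw [e1]
    norm_cast
    refine Finset.card_le_card fun c hc => ?_
    simp only [Finset.mem_filter] at hc ⊢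
    exact ⟨hc.1, hc.2.1, hc.2.2.2⟩
  have c3 : ((@Finset.filter _ (fun c : S → Qn n => G.ClC tt (exC S c) ET S ∧
        ∀ T ∈ 𝒯, Gd (sys (exC S c) ET S T)) (Classical.decPred _) univ).card : ℝ) ≤
      ({x ∈ TupR n S | GoR 𝒯 x}.ncard : ℝ) +
      ((@Finset.filter _ (fun c : S → Qn n => G.ClC tt (exC S c) ET S ∧
        ∃ T : Qn n, sys (exC S c) ET S T = ∅) (Classical.decPred _) univ).card : ℝ) := by
    rw [e1]
    norm_cast
    refine (Finset.card_le_card ?_).trans (Finset.card_union_le _ _)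
    intro c hc
    simp only [Finset.mem_filter, Finset.mem_union] at hc ⊢
    by_cases h6 : ∃ T : Qn n, sys (exC S c) ET S T = ∅
    · exact Or.inr ⟨hc.1, hc.2.1, h6⟩
    · exact Or.inl ⟨hc.1, hc.2.1, fun T hT => h6 ⟨T, hT⟩, hc.2.2⟩
  rw [k1, k3] at c1
  rw [k2] at c2'
  rw [k2, k3] at c3
  exact ⟨f0, by linarith, c2', by linarith⟩

theorem t_FINA (hA : S_ASYA) (hN : S_NST) (hH : S_HALL) (hC : S_CNTA) (hLo : S_LOWA)
    (hW1 : L.S_WCLS) (hW2 : L.S_WDEG) (hc2 : S_C2) : S_FINA := by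
  intro n hn 𝒯
  have hne : Nonempty (Qn n) := ⟨⟨{⟨0, by omega⟩}, Finset.singleton_nonempty _⟩⟩
  obtain ⟨D, hD⟩ := hC
  obtain ⟨B, hB0, hB⟩ := sav_tt hH
  obtain ⟨c₀, X₀, hc₀, hlow⟩ := hLo
  have hup : Up gpR D := fun X hX => hD.all X hX
  obtain ⟨c', X₁, hc', hcl⟩ := hW1 RR gpR D c₀ X₀ hup hc₀ hlow tt B hB0 hB n hn
  set r := Fintype.card (Qn n) with hr
  have hr1 : 1 ≤ r := Fintype.card_pos
  have hrn : r = 2 ^ n - 1 := card_Qn n
  have hSq : ∀ X, ∀ S ∈ SA X, ∀ π ∈ S, Pq π := by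
    intro X S hS π hπ
    unfold SA at hS
    rw [mem_filter, mem_powerset] at hS
    exact (mem_QB.1 (hS.1 hπ)).2
  -- the sums
  set P : ℕ → ℝ := fun X => ∑ S ∈ SA X, (r : ℝ) ^ S.card *
    pr S (fun γ : RR → Qn n => G.ClC tt γ ET S) with hP
  set A : ℕ → ℝ := fun X => ∑ S ∈ SA X, (r : ℝ) ^ S.card *
    pr S (fun γ : RR → Qn n => G.ClC tt γ ET S ∧ ∀ T ∈ 𝒯, Gd (sys γ ET S T)) with hAdef
  set Bd : ℕ → ℝ := fun X => ∑ S ∈ SA X, (r : ℝ) ^ S.card *
    pr S (fun γ : RR → Qn n => G.ClC tt γ ET S ∧ ∃ T : Qn n, sys γ ET S T = ∅) with hBd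
  have hPlow : ∀ X, X₁ ≤ X → c' * (X * L1 X ^ (r - 1)) ≤ P X := fun X hX => hcl X hX
  have hBd0 : ∀ X, 0 ≤ Bd X := fun X => Finset.sum_nonneg fun S _ =>
    mul_nonneg (by positivity) (pr_nonneg _ _)
  have hBdle : ∀ ε : ℝ, 0 < ε → ∃ X₂ : ℕ, ∀ X, X₂ ≤ X → Bd X ≤ ε * (X * L1 X ^ (r - 1)) := by
    intro ε hε
    obtain ⟨X₂, h2⟩ := hW2 RR gpR D hup n hn ε hε
    refine ⟨X₂, fun X hX => le_trans ?_ (h2 X hX)⟩
    refine Finset.sum_le_sum fun S _ => ?_
    exact mul_le_mul_of_nonneg_left (Pool.Agent.N637.QT.MQ.pr_mono fun γ h => h.2) (by positivity)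
  -- the asymptotics
  have hAsy : ∀ ε : ℝ, 0 < ε → ∃ X₂ : ℕ, ∀ X, X₂ ≤ X →
      |A X - c2 ^ 𝒯.card * P X| ≤ ε * (X * L1 X ^ (r - 1)) := by
    intro ε hε
    obtain ⟨X₂, h2⟩ := hA {T // T ∈ 𝒯} (Qn n) (Qn n) (fun T => ET T.1) ET
      (Pool.Agent.N637.QT.MQ.fam_ET 𝒯) r hr1 ε hε
    refine ⟨X₂, fun X hX => ?_⟩
    have h3 := h2 X hX
    have e1 : ∀ S : Finset RR, (fun γ : RR → Qn n => G.ClC tt γ (fun T : {T // T ∈ 𝒯} => ET T.1) S ∧
        G.ClC tt γ ET S ∧ G.GdC Gd γ (fun T : {T // T ∈ 𝒯} => ET T.1) S) =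
        (fun γ : RR → Qn n => G.ClC tt γ ET S ∧ ∀ T ∈ 𝒯, Gd (sys γ ET S T)) := by
      intro S
      funext γ
      apply propext
      constructor
      · rintro ⟨-, h4, h5⟩
        exact ⟨h4, fun T hT => h5 ⟨T, hT⟩⟩
      · rintro ⟨h4, h5⟩
        exact ⟨fun T => h4 T.1, h4, fun T => h5 T.1 T.2⟩
    have e2 : ∀ S : Finset RR, (fun γ : RR → Qn n => G.ClC tt γ (fun T : {T // T ∈ 𝒯} => ET T.1) S ∧
        G.ClC tt γ ET S) = (fun γ : RR → Qn n => G.ClC tt γ ET S) := by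
      intro S
      funext γ
      apply propext
      constructor
      · rintro ⟨-, h4⟩
        exact h4
      · intro h4
        exact ⟨fun T => h4 T.1, h4⟩
    simp only [e1, e2] at h3
    rw [Fintype.card_coe] at h3
    exact h3
  -- the numbers of the tuples
  have ht : ∀ X, ∑ S ∈ SA X, ((TupR n S).ncard : ℝ) = P X - Bd X := by
    intro X
    rw [hP, hBd, ← Finset.sum_sub_distrib]
    refine Finset.sum_congr rfl fun S hS => ?_
    rw [(three hN (hSq X S hS) 𝒯 rfl).2.1]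
    ring
  have hg1 : ∀ X, ∑ S ∈ SA X, ({x ∈ TupR n S | GoR 𝒯 x}.ncard : ℝ) ≤ A X := by
    intro X
    rw [hAdef]
    refine Finset.sum_le_sum fun S hS => ?_
    have := (three hN (hSq X S hS) 𝒯 rfl).2.2.1
    linarith
  have hg2 : ∀ X, A X - Bd X ≤ ∑ S ∈ SA X, ({x ∈ TupR n S | GoR 𝒯 x}.ncard : ℝ) := by
    intro X
    rw [hAdef, hBd, ← Finset.sum_sub_distrib]
    refine Finset.sum_le_sum fun S hS => ?_
    have := (three hN (hSq X S hS) 𝒯 rfl).2.2.2
    linarith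
  refine ⟨fun S hS => (three hN hS 𝒯 rfl).1, ?_, ?_⟩
  · obtain ⟨X₂, h2⟩ := hBdle (c' / 2) (by linarith)
    refine ⟨c' / 2, max X₁ X₂, by linarith, fun X hX => ?_⟩
    have h3 := hPlow X ((le_max_left _ _).trans hX)
    have h4 := h2 X ((le_max_right _ _).trans hX)
    rw [ht X]
    have e : 2 ^ n - 2 = r - 1 := by omega
    rw [e]
    linarith
  · rw [Metric.tendsto_nhds]
    intro ε hε
    set δ : ℝ := min (ε / 8) (1 / 2) with hδ
    have hδ0 : 0 < δ := lt_min (by linarith) (by norm_num)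
    obtain ⟨X₂, h2⟩ := hBdle (c' * δ) (by positivity)
    obtain ⟨X₃, h3⟩ := hAsy (c' * δ) (by positivity)
    filter_upwards [eventually_ge_atTop X₁, eventually_ge_atTop X₂, eventually_ge_atTop X₃,
      eventually_ge_atTop 1] with X k1 k2 k3 k4
    have g1 := hPlow X k1
    have g2 := h2 X k2
    have g3 := h3 X k3
    have hX0 : (0 : ℝ) < X := by exact_mod_cast k4
    have hL0 := one_le_L1 X
    have hY : 0 < (X : ℝ) * L1 X ^ (r - 1) := by positivity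
    have hPp : 0 < P X := lt_of_lt_of_le (by positivity) g1
    have g4 : c' * δ * (X * L1 X ^ (r - 1)) ≤ δ * P X := by
      calc c' * δ * (X * L1 X ^ (r - 1)) = δ * (c' * (X * L1 X ^ (r - 1))) := by ring
        _ ≤ δ * P X := by gcongr
    have hrt := FINR.ratio (g := ∑ S ∈ SA X, ({x ∈ TupR n S | GoR 𝒯 x}.ncard : ℝ)) (A := A X)
      (B := Bd X) (p := P X) one_pos hPp
      (pow_nonneg hc2.2.1.le 𝒯.card) (pow_le_one₀ hc2.2.1.le hc2.2.2.1.le) hδ0.le
      (min_le_right _ _) (g3.trans g4) (hBd0 X) (g2.trans g4)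
      (t := ∑ S ∈ SA X, ((TupR n S).ncard : ℝ)) (by rw [ht X, mul_one]) (by
        rw [mul_one]
        exact hg1 X) (by
        rw [mul_one]
        exact hg2 X)
    rw [Real.dist_eq]
    refine lt_of_le_of_lt hrt.2 ?_
    have : δ ≤ ε / 8 := min_le_left _ _
    linarith

end Pool.Agent.N869.QA.FINA
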