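import Pool.Agent.N869.QT.KEYC
import Pool.Agent.N869.QA.Stm

/-!
# Project QA (helper869): the sum over the boxes, for the sets with `m` elements
-/

set_option autoImplicit false
set_option linter.unusedVariables false
set_option linter.unusedSectionVars false

namespace Pool.Agent.N869.QA.KEYM

open Finset
open Pool.Agent.Y698
open Pool.Agent.Y698.SG hiding PD
open Pool.Agent.Y703.CX (jj XX)
open Pool.Agent.R426.QK
open Pool.Agent.R426.QK.KEY (fcc card_sub ph ph_div ph_mod le_XX nrm_one_le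
  prod_split ph_inj sm_disj sm_union hb_box card_QB_le sum_inv prs_card)
open Pool.Agent.N869.QT
open Pool.Agent.N869.QT.KEYC (kyc phc phc_inj mem_RgC per_key keg_err)
open Pool.Agent.N869.QT.L (GdL Lc HypC Fam)
open Pool.Agent.N869.QT.G (sys exC pr)
open scoped Classical

theorem card_key {I I' Q : Type} {γ : RR → Q} {E : I → Finset Q} {F : I' → Finset Q}
    {X z H k : ℕ} {S : Finset RR} (hS : S ∈ RgC γ E F X z H k) :
    S.card = (kyc γ z H S).1.card + (kyc γ z H S).2.card := by
  have h : Set.InjOn (bl H) (la z S : Set RR) := by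
    unfold RgC at hS
    rw [Finset.mem_filter] at hS
    exact hS.2.1
  show S.card = (sm z S).card + ((la z S).image (phc γ H)).card
  rw [Finset.card_image_of_injOn (phc_inj h), ← Finset.card_union_of_disjoint (sm_disj z S),
        sm_union]

/-- **QA-KEY.** -/
theorem t_KEYM : S_KEYM := by
  rintro hR ⟨C₁, hC₁, hb1⟩ hE hB I I' Q _ _ _ E F hF
  refine ⟨C₁ + (4 * (Fintype.card Q : ℝ) + 1), ?_, ?_⟩
  · have : (0 : ℝ) ≤ Fintype.card Q := Nat.cast_nonneg _
    linarith
  intro γ ε K hε hL X z H k N m κ hX hH hz hκ h1 hN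
  have h1' : C₁ ≤ κ ^ 24 * z := by
    have : (0 : ℝ) ≤ Fintype.card Q := Nat.cast_nonneg _
    linarith
  set Rm := (RgC γ E F X z H k).filter fun S => S.card = m with hRm
  set T := Rm.image (kyc γ z H) with hT
  have hTR : ∀ k' ∈ T, k' ∈ (RgC γ E F X z H k).image (kyc γ z H) := by
    intro k' hk
    rw [hT, mem_image] at hk
    obtain ⟨S, hS, rfl⟩ := hk
    exact mem_image_of_mem _ (mem_filter.1 hS).1
  have hTm : ∀ k' ∈ T, k'.1.card + k'.2.card = m := by
    intro k' hk
    rw [hT, mem_image] at hk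
    obtain ⟨S, hS, rfl⟩ := hk
    rw [hRm, mem_filter] at hS
    rw [← card_key hS.1]
    exact hS.2
  have hfib : ∀ P : Finset RR → Prop, ((Rm.filter fun S => P S).card : ℝ) =
      ∑ k' ∈ T, (((RgC γ E F X z H k).filter fun S => kyc γ z H S = k' ∧ P S).card : ℝ) := by
    intro P
    rw [Finset.card_eq_sum_card_fiberwise (f := kyc γ z H) (t := T) (by
      intro S hS
      rw [Finset.mem_coe, Finset.mem_filter] at hS
      exact Finset.mem_coe.2 (Finset.mem_image_of_mem _ hS.1))]
    push_cast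
    refine Finset.sum_congr rfl fun k' hk' => ?_
    congr 2
    ext S
    rw [hRm]
    simp only [Finset.mem_filter]
    constructor
    · rintro ⟨⟨⟨h2, h3⟩, h4⟩, h5⟩
      exact ⟨h2, h5, h4⟩
    · rintro ⟨h2, h5, h4⟩
      refine ⟨⟨⟨h2, ?_⟩, h4⟩, h5⟩
      rw [card_key h2, h5]
      exact hTm k' hk'
  have hall : (Rm.card : ℝ) =
      ∑ k' ∈ T, (((RgC γ E F X z H k).filter fun S => kyc γ z H S = k' ∧ True).card : ℝ) := by
    refine Eq.trans ?_ ((hfib fun _ => True).trans
      (Finset.sum_congr rfl fun k' _ => congrArg _ (fcc fun _ _ => Iff.rfl)))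
    congr 2
    ext S
    simp only [Finset.mem_filter, and_true]
  have q1 : ((Rm.filter fun S =>
      NdC K γ (sm z S) (la z S) ∧ GdC γ E S).card : ℝ) =
      ∑ k' ∈ T, (((RgC γ E F X z H k).filter fun S => kyc γ z H S = k' ∧
        (NdC K γ (sm z S) (la z S) ∧ GdC γ E S)).card : ℝ) :=
    (congrArg _ (fcc fun _ _ => Iff.rfl)).trans
      ((hfib fun S => NdC K γ (sm z S) (la z S) ∧ GdC γ E S).trans
      (Finset.sum_congr rfl fun k' _ => congrArg _ (fcc fun _ _ => Iff.rfl)))
  rw [q1, hfib, Finset.mul_sum, ← Finset.sum_sub_distrib, hall, Finset.mul_sum]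
  refine (Finset.abs_sum_le_sum_abs _ _).trans ?_
  have h3 : ∑ k' ∈ T, |(((RgC γ E F X z H k).filter fun S => kyc γ z H S = k' ∧
      (NdC K γ (sm z S) (la z S) ∧ GdC γ E S)).card : ℝ) -
      c2 ^ Fintype.card I * (((RgC γ E F X z H k).filter fun S =>
      kyc γ z H S = k' ∧ NdC K γ (sm z S) (la z S)).card : ℝ)| ≤
      ∑ k' ∈ T, (ε * (((RgC γ E F X z H k).filter fun S =>
      kyc γ z H S = k' ∧ True).card : ℝ) +
      (3 ^ (9 * k ^ 2) * κ) * (X * (1 / ((∏ p ∈ k'.1, nrm p : ℕ) : ℝ)))) := by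
    refine Finset.sum_le_sum fun k' hk => ?_
    obtain ⟨S₀, J⟩ := k'
    exact per_key hR hE hB hF hL hε hb1 hH hz hκ h1' (hTR _ hk)
  refine h3.trans ?_
  rw [Finset.sum_add_distrib]
  refine add_le_add (le_refl _) ?_
  exact keg_err hX hH hz hκ hN (by linarith) hTR

end Pool.Agent.N869.QA.KEYM
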