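import Pool.Agent.N869.QT.TRK
import Pool.Agent.N869.QA.Stm

/-!
# Project QA (helper869): the tuples of conductor at most `X` over the field `K = ℚ(√-7)`
-/

set_option autoImplicit false
set_option linter.unusedVariables false
set_option linter.unusedSectionVars false

open scoped Classical

namespace Pool.Agent.N869.QA.TRKA

open NumberField IsDedekindDomain
open Pool.Agent.Y698
open Pool.Agent.Y698.SG hiding PD
open Pool.Agent.R426
open Pool.Agent.R426.QK (nrm ClsE PS PD Pq mem_PD PS_prod c2 tt Gd)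
open Pool.Agent.R426.QM (InCl)
open Pool.Agent.Results.MP_e996df_nt.TwoPartTwistsX49 (TwoPart curve exists_e cls_e sqf_e good_e)
open Pool.Agent.N869.QT
open Pool.Agent.N869.QT.G (sys exC pr Qn ET)
open Pool.Agent.N869.QT.TRK (condK tupK goK fS mem_cond mem_tup mem_go ncard_tup inj_e memSA)
open Pool.Agent.N869.QA.L (L1)

/-- the number of the elements of a disjoint union -/
theorem ncard_union {α β : Type} (U : Finset α) (A : α → Set β) (hf : ∀ a ∈ U, (A a).Finite)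
    (hd : ∀ a ∈ U, ∀ b ∈ U, ∀ x, x ∈ A a → x ∈ A b → a = b) :
    {x | ∃ a ∈ U, x ∈ A a}.ncard = ∑ a ∈ U, (A a).ncard ∧ {x | ∃ a ∈ U, x ∈ A a}.Finite := by
  set B : α → Finset β := fun a => if h : (A a).Finite then h.toFinset else ∅ with hB
  have hBA : ∀ a ∈ U, ((B a : Finset β) : Set β) = A a := by
    intro a ha
    rw [hB]
    simp only
    rw [dif_pos (hf a ha), Set.Finite.coe_toFinset]
  have e : {x | ∃ a ∈ U, x ∈ A a} = ((U.biUnion B : Finset β) : Set β) := by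
    ext x
    rw [Finset.mem_coe, Finset.mem_biUnion]
    constructor
    · rintro ⟨a, ha, hx⟩
      refine ⟨a, ha, ?_⟩
      rw [← Finset.mem_coe, hBA a ha]
      exact hx
    · rintro ⟨a, ha, hx⟩
      refine ⟨a, ha, ?_⟩
      rw [← hBA a ha]
      exact hx
  rw [e]
  refine ⟨?_, Finset.finite_toSet _⟩
  rw [Set.ncard_coe_finset, Finset.card_biUnion]
  · refine Finset.sum_congr rfl fun a ha => ?_
    rw [← Set.ncard_coe_finset, hBA a ha]
  · intro a ha b hb hab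
    rw [Function.onFun, Finset.disjoint_left]
    intro x hx hx'
    rw [← Finset.mem_coe, hBA a ha] at hx
    rw [← Finset.mem_coe, hBA b hb] at hx'
    exact hab (hd a ha b hb x hx hx')

variable {K : Type} [Field K] [NumberField K]

/-- the tuples of conductor at most `X` -/
def famK (a : 𝓞 K) (n X : ℕ) : Set (Fin n → 𝓞 K) := {d | ∃ 𝔣 ∈ condK K X, d ∈ tupK a n 𝔣}

theorem tup_uniq {n : ℕ} {S S' : Finset RR} (hS : ∀ π ∈ S, Pq π) (hS' : ∀ π ∈ S', Pq π)
    {x : Fin n → RR} (h : x ∈ TupR n S) (h' : x ∈ TupR n S') : S = S' := by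
  ext π
  constructor
  · intro hπ
    exact (h'.2.2 π (hS π hπ)).2 ((h.2.2 π (hS π hπ)).1 hπ)
  · intro hπ
    exact (h.2.2 π (hS' π hπ)).2 ((h'.2.2 π (hS' π hπ)).1 hπ)

theorem ncard_fam (e : RR ≃+* 𝓞 K) {a : 𝓞 K} (hef : e fR = 2 * a - 1) {n : ℕ} (X : ℕ)
    (hfin : ∀ S : Finset RR, (∀ π ∈ S, Pq π) → (TupR n S).Finite)
    (P : (Fin n → 𝓞 K) → Prop) (P' : (Fin n → RR) → Prop)
    (hP : ∀ x, P (fun i => e (x i)) ↔ P' x) :
    {d ∈ famK a n X | P d}.ncard = ∑ S ∈ SA X, {x ∈ TupR n S | P' x}.ncard ∧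
      {d ∈ famK a n X | P d}.Finite := by
  have e1 : {d ∈ famK a n X | P d} =
      (fun x i => e (x i)) '' {x | ∃ S ∈ SA X, x ∈ {x ∈ TupR n S | P' x}} := by
    ext d
    rw [Set.mem_image]
    constructor
    · rintro ⟨⟨𝔣, h1, h2⟩, h3⟩
      obtain ⟨S, hS, rfl⟩ := (mem_cond e).1 h1
      refine ⟨fun i => e.symm (d i), ⟨S, hS, ?_, ?_⟩, ?_⟩
      · rw [← mem_tup e hef (memSA.1 hS).1]
        simp only [e.apply_symm_apply]
        exact h2
      · rw [← hP]
        simp only [e.apply_symm_apply]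
        exact h3
      · funext i
        exact e.apply_symm_apply (d i)
    · rintro ⟨x, ⟨S, hS, h1, h2⟩, rfl⟩
      exact ⟨⟨fS e S, (mem_cond e).2 ⟨S, hS, rfl⟩, (mem_tup e hef (memSA.1 hS).1 x).2 h1⟩,
        (hP x).2 h2⟩
  have h := ncard_union (SA X) (fun S => {x ∈ TupR n S | P' x})
    (fun S hS => (hfin S (memSA.1 hS).1).subset fun x hx => hx.1)
    (fun S hS S' hS' x hx hx' => tup_uniq (memSA.1 hS).1 (memSA.1 hS').1 hx.1 hx'.1)
  rw [e1, Set.ncard_image_of_injective _ (inj_e e n), Set.finite_image_iff ((inj_e e n).injOn)]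
  exact h

/-- **the statement over `K`** -/
theorem main (hF : S_FINA) {a : 𝓞 K} (ha : a ^ 2 = a - 2)
    (hK : Module.finrank ℚ K = 2) {n : ℕ} (hn : 2 ≤ n) (𝒯 : Finset (Finset (Fin n)))
    (h𝒯 : ∀ T ∈ 𝒯, T.Nonempty) :
    (∀ X : ℕ, (famK a n X).Finite) ∧
    (∃ c : ℝ, 0 < c ∧ ∀ᶠ X : ℕ in Filter.atTop,
      c * (X * (Real.log X) ^ (2 ^ n - 2)) ≤ ((famK a n X).ncard : ℝ)) ∧
    Filter.Tendsto (fun X : ℕ => ({d ∈ famK a n X | goK a 𝒯 d}.ncard : ℝ) /
      ((famK a n X).ncard : ℝ)) Filter.atTop (nhds (c2 ^ 𝒯.card)) := by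
  obtain ⟨e, hea, hef⟩ := exists_e ha hK
  set 𝒯' : Finset (Qn n) := 𝒯.subtype fun q => q.Nonempty with h𝒯'
  have hcard : 𝒯'.card = 𝒯.card := by
    rw [h𝒯', Finset.card_subtype, Finset.filter_true_of_mem h𝒯]
  obtain ⟨hfin, ⟨c, X₀, hc, hlow⟩, hlim⟩ := hF n hn 𝒯'
  have h0 : ∀ X : ℕ, (famK a n X).ncard = ∑ S ∈ SA X, (TupR n S).ncard ∧ (famK a n X).Finite := by
    intro X
    have h := ncard_fam (n := n) e hef X hfin (fun _ => True) (fun _ => True) (fun _ => Iff.rfl)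
    simp only [and_true, Set.ofPred_mem_eq] at h
    exact h
  have h1 : ∀ X : ℕ, {d ∈ famK a n X | goK a 𝒯 d}.ncard =
      ∑ S ∈ SA X, {x ∈ TupR n S | GoR 𝒯' x}.ncard := fun X =>
    (ncard_fam (n := n) e hef X hfin (goK a 𝒯) (GoR 𝒯')
      (fun x => mem_go e ha hK hea hef 𝒯 h𝒯 x)).1
  refine ⟨fun X => (h0 X).2, ⟨c, hc, ?_⟩, ?_⟩
  · filter_upwards [Filter.eventually_ge_atTop X₀] with X hX
    rw [(h0 X).1]
    push_cast
    refine le_trans ?_ (hlow X hX)
    have h2 := Real.log_natCast_nonneg X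
    have h3 : Real.log X ≤ L1 X := by
      unfold L1
      linarith
    gcongr
  · rw [← hcard]
    refine hlim.congr fun X => ?_
    rw [(h0 X).1, h1 X]
    push_cast
    rfl

end Pool.Agent.N869.QA.TRKA
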