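import Pool.Agent.N869.QT.Fin
import Pool.Agent.N869.QA.KEYM
import Pool.Agent.N869.QA.ASYA
import Pool.Agent.N869.QA.FINA
import Pool.Agent.N869.QA.TRKA
import Pool.Agent.N821.QA.Wall
import Pool.Agent.N124.QA.WLow
import Pool.Agent.N886.QA.WH
import Pool.Agent.N886.QA.WCLS
import Pool.Agent.N424.QA.WFB

/-!
# Project QA (helper869): the assembly
-/

set_option autoImplicit false
set_option linter.unusedVariables false

open scoped Classical

namespace Pool.Agent.N869.QA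

open Finset
open Pool.Agent.Y698 (RR)
open Pool.Agent.R426.QK
open Pool.Agent.N869

theorem t_WALL : L.S_WALL := Pool.Agent.N821.QA.t_WALL

theorem t_WH : L.S_WH := Pool.Agent.N886.QA.t_WH t_WALL

theorem t_WLOW : L.S_WLOW := Pool.Agent.N124.QA.t_WLOW t_WALL

theorem t_WCLS : L.S_WCLS := Pool.Agent.N886.QA.Cls.t_WCLS t_WLOW t_WH

theorem t_WDEG : L.S_WDEG := Pool.Agent.N886.QA.Cls.t_WDEG t_WALL

theorem t_ASYA : S_ASYA :=
  ASYA.t_ASYA recP t_BIL EQ.t_EQ QT.t_LAC QT.BOXC.t_BOXC KEYM.t_KEYM QT.CNTA.t_CNTA t_HALL t_MERT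
    t_WALL t_WH Pool.Agent.N424.QA.t_WFBC QT.G.t_AV2 MOM.t_C2

theorem t_FINA : S_FINA :=
  FINA.t_FINA t_ASYA Pool.Agent.N86.QT.t_NST t_HALL QT.CNTA.t_CNTA QT.t_LOWA t_WCLS t_WDEG
    MOM.t_C2

end Pool.Agent.N869.QA
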